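import Pool.Agent.Helper64.TY.KZ
import Pool.Agent.Helper30.TY.TDriver
import Pool.Agent.Helper55.TY.GCube

/-!
TH-Y' (stage T): the configuration `QT` of helper30 gives the context `TH` of the kill test; parity
word of a pair as a word of masks.
-/

set_option autoImplicit false
set_option exponentiation.threshold 20000

namespace Pool.Agent.Helper64.TY.K7

open Finset
open Pool.Agent.Helper89.CV (OddCover ofMask)
open Pool.Agent.Helper97.CV Pool.Agent.Helper79.CV Pool.Agent.Helper33.CV
open Pool.Agent.Helper33.TY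
open Pool.Agent.Helper63.SIMD
open Pool.Agent.Helper25.TY (R11 mem_R11)
open Pool.Agent.Helper30.TY (QT Six)
open Pool.Agent.Helper55.TY (g g_eq_pk g_xor)

theorem ne_of_lt11 {u : Fin 13} (hu : u.val < 11) : u ≠ 12 ∧ u ≠ 11 := by
  constructor
  · rintro rfl
    exact absurd hu (by decide)
  · rintro rfl
    exact absurd hu (by decide)

/-- the context of the kill test from stage T -/
theorem TH.of_QT {reps : List ℕ} {j : ℕ} {B : Finset (Finset (Fin 13))} (h : QT reps j B 12 11) :
    TH B := by
  have hB := h.best.odd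
  refine ⟨hB, h.best.le, ?_, ?_, ?_⟩
  · intro u hu
    rcases h.other (ne_of_lt11 hu).1 (ne_of_lt11 hu).2 with h1 | h1 <;> omega
  · intro u hu h1
    rcases Nat.eq_zero_or_pos (mm B 12 u) with h2 | h2
    · exact (h.heavy (Or.inr rfl) (ne_of_lt11 hu).2.symm (by omega)).ge
    · exact (h.heavy (Or.inl rfl) (ne_of_lt11 hu).1.symm h2).ge
  · obtain ⟨Y, hY⟩ := h.six
    have hYR : Y ⊆ R11 := by
      intro u hu
      rw [mem_R11]
      by_contra hcon
      have h3 : ∀ u : Fin 13, ¬ u.val < 11 → u = 12 ∨ u = 11 := by decide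
      rcases h3 u hcon with rfl | rfl
      · exact hY.nx hu
      · exact hY.nz hu
    have h4 : (R11.filter fun u => 8 ≤ MM B u) ⊆ R11 \ Y := by
      intro u hu
      rw [mem_filter] at hu
      rw [mem_sdiff]
      refine ⟨hu.1, fun h5 => ?_⟩
      have := hY.six u h5
      omega
    refine (card_le_card h4).trans ?_
    rw [card_sdiff_of_subset hYR, hY.card]
    decide

/-- masks of the outside quads whose union with `k` is a block -/
def Rq (B : Finset (Finset (Fin 13))) (k : Fin 13) : Finset ℕ :=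
  (L 11 4).toFinset.filter fun r => insert k (ofMask r) ∈ B

variable {B : Finset (Finset (Fin 13))}

theorem bw_link {k : Fin 13} (hk : k = 12 ∨ k = 11) :
    bw (fun s => if s.card = 4 then ind (link B k) s else 0) = g (Rq B k) := by
  rw [g_eq_pk (S := Rq B k) (N := 2048) fun r hr => by
    unfold Rq at hr
    rw [mem_filter, List.mem_toFinset, mem_L (by norm_num)] at hr
    exact hr.1.1]
  unfold bw
  refine pk_congr fun m hm => ?_
  have hs := ofMask_subset_R11 hm
  have hkm : k ∉ ofMask m := by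
    intro h1
    have h2 := mem_R11.1 (hs h1)
    rcases hk with rfl | rfl
    · exact absurd h2 (by decide)
    · exact absurd h2 (by decide)
  unfold ind Pool.Agent.Helper55.TY.ind Rq
  beta_reduce
  by_cases h4 : (ofMask m).card = 4
  · rw [if_pos h4]
    refine if_congr ?_ rfl rfl
    rw [mem_link, mem_filter, List.mem_toFinset, mem_L (by norm_num)]
    exact ⟨fun h => ⟨⟨hm, h4⟩, h.2⟩, fun h => ⟨hkm, h.2⟩⟩
  · rw [if_neg h4, if_neg]
    intro h
    rw [mem_filter, List.mem_toFinset, mem_L (by norm_num)] at h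
    exact h4 h.1.2

/-- the parity word -/
theorem rP_eq (hB : OddCover B) (h157 : B.card ≤ 157) :
    rP (bw (qf B fun _ => 0)) = g (Rq B 11) ^^^ g (Rq B 12) := by
  rw [(word_uv hB h157).2]
  have hu1 : ∀ s, uS B s < 2 ^ 8 := by
    intro s
    unfold uS ind
    split_ifs <;> norm_num
  have hv1 : ∀ s, vS B s < 2 ^ 8 := by
    intro s
    unfold vS ind
    split_ifs <;> norm_num
  have h1 : bw (fun s => uS B s ^^^ vS B s) = bw (uS B) ^^^ bw (vS B) := by
    unfold bw
    exact (pk_xor (fun m _ => hu1 (ofMask m)) (fun m _ => hv1 (ofMask m))).symm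
  have h2 : bw (uS B) = g (Rq B 12) := bw_link (Or.inl rfl)
  have h3 : bw (vS B) = g (Rq B 11) := bw_link (Or.inr rfl)
  rw [h1, h2, h3, Nat.xor_comm]

/-- the pair word as packed data on masks -/
theorem rF_data (hB : OddCover B) (h157 : B.card ≤ 157) :
    ∃ p : ℕ → ℕ, rF (bw (qf B fun _ => 0)) = pk 8 2048 p ∧
      (∀ r ∈ Kill11.P2, p r ≤ Lam (decK B) (ofMask r)) ∧ ∀ r, r ∉ Kill11.P2 → p r = 0 := by
  refine ⟨mkF (wR B), by rw [rF_eq hB h157, pk_mkF], ?_, ?_⟩
  · intro r hr
    rw [mem_P2_iff] at hr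
    unfold mkF
    rw [if_pos hr.1]
    exact wR_le hB hr.2
  · intro r hr
    unfold mkF
    split_ifs with h1
    · unfold wR
      rw [if_neg]
      exact fun h2 => hr (mem_P2_iff.2 ⟨h1, h2⟩)
    · rfl

end Pool.Agent.Helper64.TY.K7
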