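import Pool.Agent.Helper55.TY.Cbk11
import Pool.Agent.Helper64.TY.TCtx

/-!
TH-Y' (stage T): the callback on the pair word: root words, kill test, search machine on the
eleven points.
-/

set_option autoImplicit false
set_option exponentiation.threshold 20000

namespace Pool.Agent.Helper64.TY.K7

open Finset
open Pool.Agent.Helper89.CV (OddCover ofMask)
open Pool.Agent.Helper97.CV Pool.Agent.Helper79.CV
open Pool.Agent.Helper33.TY
open Pool.Agent.Helper63.SIMD
open Pool.Agent.Helper63.TY (Cb Acc)
open Pool.Agent.Helper55.TY (g g_eq_pk g_xor)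
open Pool.Agent.Helper55.TY.M11 (force force_eq kcb acc_kcb Start KillOK Dec B5 Rk)

variable {B : Finset (Finset (Fin 13))}

theorem Dec_B5 (hB : OddCover B) : Dec B B5 = decK B := by
  unfold Dec decK B5
  refine filter_congr fun b hb => ?_
  have h5 : b.card = 5 := hB.1 b hb
  rw [List.mem_toFinset, mem_L (by norm_num), ofMask_mk]
  constructor
  · intro h
    by_contra hc
    rw [not_or] at hc
    refine h ⟨?_, h5⟩
    rw [mk_lt_iff (n := 11)]
    intro a ha
    have h1 : a ≠ 12 := fun e => hc.1 (by rwa [← e])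
    have h2 : a ≠ 11 := fun e => hc.2 (by rwa [← e])
    omega
  · rintro h ⟨h1, _⟩
    rcases h with h | h
    · exact absurd (mk_lt_iff (n := 11).1 h1 12 h) (by decide)
    · exact absurd (mk_lt_iff (n := 11).1 h1 11 h) (by decide)

/-- a kill test which is sound for `B` gives a start state of the machine -/
theorem start_of (hB : OddCover B) (h157 : B.card ≤ 157) {K : ℕ → Bool}
    (hK : KillOK K B) : Start K (rP (bw (qf B fun _ => 0))) (rF (bw (qf B fun _ => 0))) B where
  odd := hB
  kill := hK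
  par := rP_eq hB h157
  pair := by
    obtain ⟨p, hp, hp1, hp2⟩ := rF_data hB h157
    refine ⟨p, hp, ?_, hp2⟩
    rw [Dec_B5 hB]
    exact hp1

/-- start of the machine for stage T -/
theorem TH.start (h : TH B) {Q : ℕ} (hQ : Q = bw (qf B fun _ => 0)) :
    Start (k7 (rA8 Q) (rA10 Q) (rL8 Q)) (rP Q) (rF Q) B := by
  rw [hQ]
  refine start_of h.odd h.le157 fun p hp hp0 => ?_
  rw [rA8_eq h.odd h.le157, rA10_eq h.odd h.le157, rL8_eq h.odd h.le157]
  exact k7_ok h hp hp0

/-- THE CALLBACK OF STAGE T: dead pairs leave the stream unchanged, the other pairs use it -/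
def cbT (Q : ℕ) : Cb := fun s c =>
  force s (rF Q) fun F => force s (rA8 Q) fun A8 => force s (rA10 Q) fun A10 =>
    force s (rL8 Q) fun L8 => kcb (k7 A8 A10 L8 F) (k7 A8 A10 L8) (rP Q) F s c

/-- THE LAW -/
theorem cbT_law (Q : ℕ) (C : Finset (Finset (Fin 13)) → Prop)
    (h : ∀ B, C B → TH B ∧ Q = bw (qf B fun _ => 0)) : Acc (∀ B, C B → False) (cbT Q) := by
  intro s c hs
  unfold cbT at hs
  simp only [force_eq] at hs
  have hst : ∀ B, C B → Start (k7 (rA8 Q) (rA10 Q) (rL8 Q)) (rP Q) (rF Q) B := fun B hB =>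
    (h B hB).1.start (h B hB).2
  refine acc_kcb (fun hk B hB => ?_) hst s c hs
  rw [(hst B hB).kill_eq] at hk
  exact Bool.false_ne_true hk

end Pool.Agent.Helper64.TY.K7
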