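import Pool.Agent.Helper97.CV.Kill10Sound
import Pool.Agent.Helper55.TY.M10Run
import Pool.Agent.Helper33.TY.Layer

/-!
TH-Y' (stages E, B1a): the kill test of the frame `K = {10, 11, 12}` on a pair word with a refined
exception.

`x r` = row bounds from the pair word, `t` = sum of `max (l r) (x r)`. The lower bounds `l` may fail
at one point `s` of the set `N`, where only `l'` is known. The test kills iff `T <= t` and
(`Tb <= t` or `128 <= x s + D + t` for all `s` in `N`); with `T + e <= Tb + l'` and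
`D + T + e <= 128` this is sound (`e` = the bound of `l` on `N`).
-/

set_option autoImplicit false
set_option exponentiation.threshold 20000

namespace Pool.Agent.Helper64.TY.KilX

open Finset Pool.Agent.Helper63.SIMD Pool.Agent.Helper97.CV.KillW Pool.Agent.Helper97.CV.Cube
open Pool.Agent.Helper89.CV Pool.Agent.Helper97.CV
open Pool.Agent.Helper97.CV.Kill10
open Pool.Agent.Helper55.TY

/-! ### the two halves of `resRun` on a pair word -/

/-- row bounds from the pair word -/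
def rowsF (k2 k5 k8 O2 C1 M1 Ev A f : ℕ) : ℕ :=
  (((((((f + k2) >>> 7) &&& O2) + (((f + k5) >>> 7) &&& O2) + (((f + k8) >>> 7) &&& O2)) * C1)
      >>> (8 * 512) &&& M1) + A) &&& Ev

/-- fieldwise maximum with `l` -/
def maxF (H Ls Lw X : ℕ) : ℕ :=
  (fun d => ((X ^^^ Lw) &&& (d - (d >>> 7))) ^^^ Lw) ((X + Ls) &&& H)

theorem xF_le127 {t a : ℕ → ℕ} (ht : ∀ r, t r ≤ 3) (ha : ∀ r, a r ≤ 97) (r : ℕ) :
    xF t a r ≤ 127 := by
  unfold xF
  have h1 : ∑ q ∈ P1, KillW.ext 1024 t (r + q) ≤ P1.card * 3 := sum_ext_le fun s => ht s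
  rw [P1_card] at h1
  have h2 := ha r
  split_ifs
  · omega
  · omega

theorem xF_zero {t a : ℕ → ℕ} {r : ℕ} (hr : r ∉ P1) : xF t a r = 0 := by
  unfold xF
  rw [if_neg hr]

theorem rowsF_eq {g a : ℕ → ℕ} (hg : ∀ r, g r ≤ 127) (ha : ∀ r, a r ≤ 97) :
    rowsF (kT 1 2) (kT 1 5) (kT 1 8) (kO2 1) kC1 (kM1 1) (kEv 1) (pk 8 1024 a) (pk 8 1024 g) =
      pk 8 1024 (xF (tF g) a) := by
  have hgc : pk 8 1024 g = cube 1 (fun _ => g) := (cube_one fun _ => g).symm
  have hac : pk 8 1024 a = cube 1 (fun _ => a) := (cube_one fun _ => a).symm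
  have hxc : pk 8 1024 (xF (tF g) a) = cube 1 (fun _ => xF (tF g) a) :=
    (cube_one fun _ => xF (tF g) a).symm
  rw [hgc, hac, hxc]
  have ht : ∀ k, k = 2 ∨ k = 5 ∨ k = 8 →
      ((cube 1 (fun _ => g) + kT 1 k) >>> 7) &&& kO2 1 =
      cube 1 (fun _ r => if r ∈ P2 then (if k ≤ g r then 1 else 0) else 0) := by
    intro k hk
    unfold kT kO2
    rw [cube_const, cube_const, cube_add, cube_shr7]
    · refine cube_congr fun i hi r _ => ?_
      unfold onS
      by_cases hr : r ∈ P2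
      · simp only [if_pos hr]
        exact thr (hg r) (by omega) (by omega)
      · simp only [if_neg hr, Nat.and_zero]
    · intro i hi r _
      have h1 := hg r
      show g r + onS P2 (128 - k) r < 2 ^ 8
      unfold onS
      split_ifs <;> omega
    · intro r _
      unfold onS
      split_ifs <;> omega
  have hX : ∀ t : ℕ → ℕ → ℕ, (∀ i r, t i r ≤ 3) →
      ((((cube 1 t * kC1) >>> (8 * 512)) &&& kM1 1) + cube 1 (fun _ => a)) &&& kEv 1 =
      cube 1 (fun i => xF (t i) a) := by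
    intro t ht3
    unfold kC1 kM1 kEv
    rw [cube_const (onS P1 254)]
    have hM : onS P1 255 = fun r => if r ∈ P1 then 255 else 0 := rfl
    rw [hM, cube_corr (c := 3) (by norm_num) (fun q hq => P1_le hq) (fun i _ r _ => ht3 i r)
      (by rw [P1_card]; norm_num) (fun q hq => P1_lt hq), cube_add]
    have hs : ∀ i < 1, ∀ r, (if r ∈ P1 then ∑ q ∈ P1, KillW.ext 1024 (t i) (r + q) else 0) + a r
        ≤ 127 := by
      intro i hi r
      have h1 : ∑ q ∈ P1, KillW.ext 1024 (t i) (r + q) ≤ P1.card * 3 := sum_ext_le fun s => ht3 i s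
      rw [P1_card] at h1
      have h2 := ha r
      split_ifs <;> omega
    rw [cube_land]
    · refine cube_congr fun i hi r _ => ?_
      unfold xF onS
      by_cases hr : r ∈ P1
      · have h3 := hs i hi r
        simp only [if_pos hr] at h3 ⊢
        exact land254 (by omega)
      · simp only [if_neg hr, Nat.and_zero]
    · intro i hi r _
      have := hs i hi r
      show _ < 2 ^ 8
      omega
    · intro i _ r _
      show onS P1 254 r < 2 ^ 8
      unfold onS
      split_ifs <;> norm_num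
  unfold rowsF
  rw [ht 2 (by omega), ht 5 (by omega), ht 8 (by omega), cube_add, cube_add]
  have e1 : cube 1 (fun i r =>
      ((if r ∈ P2 then (if 2 ≤ g r then 1 else 0) else 0) +
      (if r ∈ P2 then (if 5 ≤ g r then 1 else 0) else 0)) +
      (if r ∈ P2 then (if 8 ≤ g r then 1 else 0) else 0)) =
      cube 1 (fun _ => tF g) := by
    refine cube_congr fun i _ r _ => ?_
    unfold tF
    by_cases hr : r ∈ P2
    · simp only [if_pos hr]
    · simp only [if_neg hr]
  rw [e1, hX _ (fun i r => tF_le _ r)]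

theorem maxF_eq {x l : ℕ → ℕ} (hx : ∀ r, x r ≤ 127) (hx0 : ∀ r, r ∉ P1 → x r = 0)
    (hl : ∀ r, l r ≤ 127) :
    maxF (kH 1) (pk 8 1024 (fun r => onS P1 128 r - l r)) (pk 8 1024 l) (pk 8 1024 x) =
      pk 8 1024 (fun r => max (l r) (x r)) := by
  have e2 : (pk 8 1024 x + pk 8 1024 (fun r => onS P1 128 r - l r)) &&& kH 1 =
      pk 8 1024 (fun r => 2 ^ 7 * (if r ∈ P1 ∧ l r ≤ x r then 1 else 0)) := by
    have hH : kH 1 = pk 8 1024 (onS P1 128) := by
      unfold kH
      rw [cube_const, cube_one]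
    rw [hH, pk_add, pk_land]
    · refine pk_congr fun r _ => ?_
      have h1 := hx r
      have h2 := hl r
      unfold onS
      by_cases hr : r ∈ P1
      · simp only [if_pos hr]
        rw [land128 (by omega)]
        by_cases h3 : l r ≤ x r
        · rw [if_pos (by omega), if_pos ⟨hr, h3⟩]
          norm_num
        · rw [if_neg (by omega), if_neg (fun h4 => h3 h4.2)]
          norm_num
      · simp only [if_neg hr, Nat.and_zero]
        rw [if_neg (fun h4 => hr h4.1)]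
        norm_num
    · intro r _
      have h1 := hx r
      show x r + (onS P1 128 r - l r) < 2 ^ 8
      unfold onS
      split_ifs <;> omega
    · intro r _
      show onS P1 128 r < 2 ^ 8
      unfold onS
      split_ifs <;> norm_num
  have e4 : pk 8 1024 (fun r => 2 ^ 7 * (if r ∈ P1 ∧ l r ≤ x r then 1 else 0)) -
      (pk 8 1024 (fun r => 2 ^ 7 * (if r ∈ P1 ∧ l r ≤ x r then 1 else 0))) >>> 7 =
      pk 8 1024 (fun r => if r ∈ P1 ∧ l r ≤ x r then 127 else 0) := by
    have e5 : (pk 8 1024 (fun r => 2 ^ 7 * (if r ∈ P1 ∧ l r ≤ x r then 1 else 0))) >>> 7 =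
        pk 8 1024 (fun r => if r ∈ P1 ∧ l r ≤ x r then 1 else 0) := by
      rw [← mul_pk, Nat.shiftRight_eq_div_pow, Nat.mul_div_cancel_left _ (Nat.two_pow_pos 7)]
    rw [e5, pk_sub]
    · refine pk_congr fun r _ => ?_
      split_ifs <;> norm_num
    · intro r _
      split_ifs <;> norm_num
  unfold maxF
  simp only []
  rw [e2, e4, pk_xor, pk_land, pk_xor]
  · refine pk_congr fun r _ => ?_
    have h1 := hx r
    have h2 := hl r
    show ((x r ^^^ l r) &&& (if r ∈ P1 ∧ l r ≤ x r then 127 else 0)) ^^^ l r = max (l r) (x r)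
    by_cases hr : r ∈ P1 ∧ l r ≤ x r
    · rw [if_pos hr, land127, Nat.xor_assoc, Nat.xor_self, Nat.xor_zero, max_eq_right hr.2]
      have h3 := Nat.xor_lt_two_pow (n := 7) (x := x r) (y := l r) (by omega) (by omega)
      omega
    · rw [if_neg hr, Nat.and_zero, Nat.zero_xor, max_eq_left]
      by_cases hr1 : r ∈ P1
      · by_contra h4
        exact hr ⟨hr1, by omega⟩
      · rw [hx0 r hr1]
        exact Nat.zero_le _
  · intro r _
    have h1 := hx r
    have h2 := hl r
    show (x r ^^^ l r) &&& _ < 2 ^ 8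
    exact lt_of_le_of_lt Nat.and_le_left (Nat.xor_lt_two_pow (by omega) (by omega))
  · intro r _
    have h2 := hl r
    omega
  · intro r _
    have h1 := hx r
    have h2 := hl r
    exact Nat.xor_lt_two_pow (by omega) (by omega)
  · intro r _
    show (if _ then 127 else 0) < 2 ^ 8
    split_ifs <;> norm_num
  · intro r _
    have h1 := hx r
    omega
  · intro r _
    have h2 := hl r
    omega

/-! ### the test -/

/-- THE TEST with a refined exception: `N1` = ones on `N`, `HN` = 128 on `N` -/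
def kilX (k2 k5 k8 O2 C1 M1 Ev H T Tb D N1 HN A Ls Lw f : ℕ) : Bool :=
  (fun X => (fun t => Nat.ble T t && (Nat.ble Tb t ||
      Nat.beq ((X + (D + t) * N1) &&& HN) HN)) (maxF H Ls Lw X % 255))
    (rowsF k2 k5 k8 O2 C1 M1 Ev A f)

/-- `g`, `a`, `l` are valid for the cover, `l` up to one exception in `N` -/
structure ValidX (B : Finset (Finset (Fin 13))) (g a l : ℕ → ℕ) (N : Finset ℕ) (e l' : ℕ) :
    Prop where
  pair : ∀ z w : Fin 13, z.val < 10 → w.val < 10 → z ≠ w →
    (g (2 ^ z.val + 2 ^ w.val) + 1) / 3 ≤ mm B z w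
  off : ∀ z : Fin 13, z.val < 10 → a (2 ^ z.val) ≤ mm B z 10 + mm B z 11 + mm B z 12 + 1
  low : ∃ s : Fin 13, (∀ z : Fin 13, z.val < 10 → z ≠ s → l (2 ^ z.val) ≤ MM B z) ∧
    (s.val < 10 → l (2 ^ s.val) ≤ MM B s ∨ (2 ^ s.val ∈ N ∧ l (2 ^ s.val) ≤ e ∧ l' ≤ MM B s))

/-- no exception -/
theorem ValidX.of_le {B : Finset (Finset (Fin 13))} {g a l : ℕ → ℕ} {N : Finset ℕ} {e l' : ℕ}
    (h1 : ∀ z w : Fin 13, z.val < 10 → w.val < 10 → z ≠ w →
      (g (2 ^ z.val + 2 ^ w.val) + 1) / 3 ≤ mm B z w)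
    (h2 : ∀ z : Fin 13, z.val < 10 → a (2 ^ z.val) ≤ mm B z 10 + mm B z 11 + mm B z 12 + 1)
    (h3 : ∀ z : Fin 13, z.val < 10 → l (2 ^ z.val) ≤ MM B z) : ValidX B g a l N e l' :=
  ⟨h1, h2, 12, fun z hz _ => h3 z hz, fun h => absurd h (by decide)⟩

theorem row_le {B : Finset (Finset (Fin 13))} (hB : OddCover B) {g a l : ℕ → ℕ} {N : Finset ℕ}
    {e l' : ℕ} (h : ValidX B g a l N e l') (z : Fin 13) (hz : z.val < 10) :
    xF (tF g) a (2 ^ z.val) ≤ MM B z := by
  have h1 : Sound B (fun _ => 0) (fun _ => 0) g a (fun _ => 0) := by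
    refine ⟨?_, h.off, fun _ _ => Nat.zero_le _⟩
    intro z w hz hw hzw
    have h2 : fF (fun _ => 0) (fun _ => 0) g (2 ^ z.val + 2 ^ w.val) = g (2 ^ z.val + 2 ^ w.val) := by
      unfold fF
      have h3 : ∀ r, KillW.ext 1024 (fun s => (fun _ => 0) s &&& (fun _ => 0) s) r = 0 := by
        intro r
        unfold KillW.ext
        simp
      simp only [h3, sum_const_zero]
      simp
    rw [h2]
    exact h.pair z w hz hw hzw
  have h2 := xF_le hB h1 z hz
  have h3 : tF (fF (fun _ => 0) (fun _ => 0) g) = tF g := by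
    funext r
    unfold tF fF
    have h4 : ∀ r, KillW.ext 1024 (fun s => (fun _ => 0) s &&& (fun _ => 0) s) r = 0 := by
      intro r
      unfold KillW.ext
      simp
    simp only [h4, sum_const_zero, ite_self, zero_add]
  rw [h3] at h2
  exact h2

/-- SOUNDNESS of the test -/
theorem kilX_sound {B : Finset (Finset (Fin 13))} (hB : OddCover B) (h157 : B.card ≤ 157)
    {g a l : ℕ → ℕ} {N : Finset ℕ} {e l' : ℕ} (hN : N ⊆ P1) (hg : ∀ r, g r ≤ 127)
    (ha : ∀ r, a r ≤ 97) (hl : ∀ r, l r ≤ 127) (hl0 : ∀ r, r ∉ P1 → l r = 0)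
    (h : ValidX B g a l N e l') {T Tb D : ℕ}
    (hT : 88 < T + (MM B 10 + MM B 11 + MM B 12)) (h1 : T + e ≤ Tb + l')
    (h2 : D + T + e ≤ 128) (h3 : D + Tb ≤ 129) :
    kilX (kT 1 2) (kT 1 5) (kT 1 8) (kO2 1) kC1 (kM1 1) (kEv 1) (kH 1) T Tb D
      (pk 8 1024 (onS N 1)) (pk 8 1024 (onS N 128)) (pk 8 1024 a)
      (pk 8 1024 (fun r => onS P1 128 r - l r)) (pk 8 1024 l) (pk 8 1024 g) = false := by
  unfold kilX
  simp only []
  rw [rowsF_eq hg ha]
  set x := xF (tF g) a with hxd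
  have hx127 : ∀ r, x r ≤ 127 := fun r => xF_le127 (fun r => tF_le g r) ha r
  have hx0 : ∀ r, r ∉ P1 → x r = 0 := fun r hr => xF_zero hr
  rw [maxF_eq hx127 hx0 hl]
  set t := pk 8 1024 (fun r => max (l r) (x r)) % 255 with htd
  -- the total
  have ht : t ≤ ∑ z ∈ range 10, max (l (2 ^ z)) (x (2 ^ z)) := by
    have h4 := pk_mod255 1024 (fun r => max (l r) (x r))
    have h5 : ∑ r ∈ range 1024, max (l r) (x r) = ∑ z ∈ range 10, max (l (2 ^ z)) (x (2 ^ z)) := by
      rw [← sum_P1 fun r => max (l r) (x r)]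
      refine (sum_subset (fun r hr => mem_range.2 (P1_lt hr)) fun r _ hr => ?_).symm
      rw [hl0 r hr, hx0 r hr, max_self]
    rw [h5] at h4
    exact h4
  have hxM : ∀ z : Fin 13, z.val < 10 → x (2 ^ z.val) ≤ MM B z := fun z hz => row_le hB h z hz
  have hsum := sum_MM_outside hB h157
  obtain ⟨s, hs1, hs2⟩ := h.low
  by_contra hc
  rw [Bool.not_eq_false, Bool.and_eq_true, Bool.or_eq_true, Nat.ble_eq, Nat.ble_eq] at hc
  obtain ⟨hc1, hc2⟩ := hc
  -- without exception
  have hall : (∀ z : Fin 13, z.val < 10 → l (2 ^ z.val) ≤ MM B z) → False := by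
    intro hlow
    have h4 : ∑ z ∈ range 10, max (l (2 ^ z)) (x (2 ^ z)) ≤
        ∑ z ∈ range 10, (if h : z < 10 then MM B ⟨z, by omega⟩ else 0) := by
      refine sum_le_sum fun z hz => ?_
      have hz := mem_range.1 hz
      rw [dif_pos hz]
      exact max_le (hlow ⟨z, by omega⟩ hz) (hxM ⟨z, by omega⟩ hz)
    omega
  by_cases hs10 : s.val < 10
  swap
  · refine hall fun z hz => hs1 z hz ?_
    rintro rfl
    exact hs10 hz
  rcases hs2 hs10 with h4 | ⟨hsN, hle, hls⟩
  · refine hall fun z hz => ?_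
    by_cases hzs : z = s
    · rw [hzs]
      exact h4
    · exact hs1 z hz hzs
  -- the exception
  have hsum2 : ∑ z ∈ range 10, max (l (2 ^ z)) (x (2 ^ z)) + max l' (x (2 ^ s.val)) ≤
      ∑ z ∈ range 10, (if h : z < 10 then MM B ⟨z, by omega⟩ else 0) +
        max (l (2 ^ s.val)) (x (2 ^ s.val)) := by
    have hmem : s.val ∈ range 10 := mem_range.2 hs10
    rw [← add_sum_erase _ _ hmem, ← add_sum_erase (range 10)
      (fun z => if h : z < 10 then MM B ⟨z, by omega⟩ else 0) hmem]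
    have h5 : ∑ z ∈ (range 10).erase s.val, max (l (2 ^ z)) (x (2 ^ z)) ≤
        ∑ z ∈ (range 10).erase s.val, (if h : z < 10 then MM B ⟨z, by omega⟩ else 0) := by
      refine sum_le_sum fun z hz => ?_
      rw [mem_erase, mem_range] at hz
      rw [dif_pos hz.2]
      refine max_le (hs1 ⟨z, by omega⟩ hz.2 ?_) (hxM ⟨z, by omega⟩ hz.2)
      intro h6
      exact hz.1 (congrArg Fin.val h6)
    have h6 : max l' (x (2 ^ s.val)) ≤ (if h : s.val < 10 then MM B ⟨s.val, by omega⟩ else 0) := by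
      rw [dif_pos hs10]
      exact max_le hls (hxM s hs10)
    omega
  have hm1 : l' ≤ max l' (x (2 ^ s.val)) := le_max_left _ _
  have hm2 : x (2 ^ s.val) ≤ max l' (x (2 ^ s.val)) := le_max_right _ _
  rcases Nat.lt_or_ge (x (2 ^ s.val)) (l (2 ^ s.val)) with hxl | hxl
  · rw [max_eq_left hxl.le] at hsum2
    have ht2 : t < Tb := by omega
    rcases hc2 with hc2 | hc2
    · omega
    · replace hc2 := Nat.eq_of_beq_eq_true hc2
      have h5 : (pk 8 1024 x + (D + t) * pk 8 1024 (onS N 1)) &&& pk 8 1024 (onS N 128) =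
          pk 8 1024 (fun r => (x r + (D + t) * onS N 1 r) &&& onS N 128 r) := by
        rw [mul_pk, pk_add, pk_land]
        · intro r _
          have h6 := hx127 r
          show x r + (D + t) * onS N 1 r < 2 ^ 8
          unfold onS
          split_ifs <;> omega
        · intro r _
          show onS N 128 r < 2 ^ 8
          unfold onS
          split_ifs <;> norm_num
      rw [h5] at hc2
      have hsP : 2 ^ s.val ∈ P1 := hN hsN
      have hslt : 2 ^ s.val < 1024 := P1_lt hsP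
      have h7 := congrArg (fun w => fld 8 w (2 ^ s.val)) hc2
      rw [fld_pk _ hslt, fld_pk _ hslt] at h7
      · unfold onS at h7
        rw [if_pos hsN, if_pos hsN, mul_one, land128 (by have := hx127 (2 ^ s.val); omega)] at h7
        split_ifs at h7 with h8
        · omega
      · intro r _
        unfold onS
        split_ifs <;> norm_num
      · intro r _
        refine lt_of_le_of_lt Nat.and_le_right ?_
        unfold onS
        split_ifs <;> norm_num
  · rw [max_eq_right hxl] at hsum2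
    omega

/-! ### the raw form, constants of helper55's machine M10 -/

/-- raw row bounds -/
def rowsX (A f : ℕ) : ℕ :=
  Nat.land (Nat.add (Nat.land (Nat.shiftRight (Nat.mul (Nat.add (Nat.add
    (Nat.land (Nat.shiftRight (Nat.add f M10.cT2) 7) M10.cO2)
    (Nat.land (Nat.shiftRight (Nat.add f M10.cT5) 7) M10.cO2))
    (Nat.land (Nat.shiftRight (Nat.add f M10.cT8) 7) M10.cO2)) M10.cC1) 4096) M10.cM1) A) M10.cEv

/-- raw maximum -/
def maxX (Ls Lw X : ℕ) : ℕ :=
  (fun d => Nat.xor (Nat.land (Nat.xor X Lw) (Nat.sub d (Nat.shiftRight d 7))) Lw)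
    (Nat.land (Nat.add X Ls) M10.cH)

/-- THE TEST, raw form: plugs into `M10.run` as `K = kx T Tb D N1 HN A Ls Lw` -/
def kx (T Tb D N1 HN A Ls Lw f : ℕ) : Bool :=
  (fun X => (fun t => @Bool.rec (fun _ => Bool) false
      (@Bool.rec (fun _ => Bool)
        (Nat.beq (Nat.land (Nat.add X (Nat.mul (Nat.add D t) N1)) HN) HN) true (Nat.ble Tb t))
      (Nat.ble T t)) (Nat.mod (maxX Ls Lw X) 255)) (rowsX A f)

theorem pk_onS {n : ℕ} (hn : n ≤ 13) (k v : ℕ) :
    pk 8 (2 ^ n) (fun r => if r ∈ (Pool.Agent.Helper79.CV.L n k).toFinset then v else 0) =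
      Pool.Agent.Helper33.TY.lay8 v n k := by
  rw [Pool.Agent.Helper33.TY.lay8_eq v hn k]
  refine pk_congr fun m hm => ?_
  refine if_congr ?_ rfl rfl
  rw [List.mem_toFinset, Pool.Agent.Helper79.CV.mem_L hn]
  exact ⟨fun h => h.2, fun h => ⟨hm, h⟩⟩

theorem corrC_eq (E : ℕ) {l : List ℕ} (hl : l.Nodup) :
    corrC E l.toFinset = Pool.Agent.Helper33.TY.cC E l := by
  unfold corrC
  rw [List.sum_toFinset _ hl]
  induction l with
  | nil => rfl
  | cons c l ih =>
    rw [List.map_cons, List.sum_cons, ih (List.nodup_cons.1 hl).2]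
    rfl

theorem k1 (Rs : Finset ℕ) (v : ℕ) : pk 8 1024 (onS Rs v) * rep 16384 1 = pk 8 1024 (onS Rs v) := by
  rw [cube_const, cube_one]

theorem kT_eq (k : ℕ) : kT 1 k = Pool.Agent.Helper33.TY.lay8 (128 - k) 10 2 := by
  unfold kT
  rw [k1]
  exact pk_onS (n := 10) (by norm_num) 2 _

theorem cT2_eq : M10.cT2 = kT 1 2 := by rw [kT_eq]; decide +kernel
theorem cT5_eq : M10.cT5 = kT 1 5 := by rw [kT_eq]; decide +kernel
theorem cT8_eq : M10.cT8 = kT 1 8 := by rw [kT_eq]; decide +kernel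
theorem cO2_eq : M10.cO2 = kO2 1 := by
  unfold kO2
  rw [k1, show pk 8 1024 (onS P2 1) = _ from pk_onS (n := 10) (by norm_num) 2 1]
  decide +kernel
theorem cC1_eq : M10.cC1 = kC1 := by
  unfold kC1 P1
  rw [corrC_eq _ (Pool.Agent.Helper79.CV.nodup_L 10 1)]
  decide +kernel
theorem cM1_eq : M10.cM1 = kM1 1 := by
  unfold kM1
  rw [k1, show pk 8 1024 (onS P1 255) = _ from pk_onS (n := 10) (by norm_num) 1 255]
  decide +kernel
theorem cEv_eq : M10.cEv = kEv 1 := by
  unfold kEv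
  rw [k1, show pk 8 1024 (onS P1 254) = _ from pk_onS (n := 10) (by norm_num) 1 254]
  decide +kernel
theorem cH_eq : M10.cH = kH 1 := by
  unfold kH
  rw [k1, show pk 8 1024 (onS P1 128) = _ from pk_onS (n := 10) (by norm_num) 1 128]
  decide +kernel

theorem rowsX_eq (A f : ℕ) : rowsX A f =
    rowsF (kT 1 2) (kT 1 5) (kT 1 8) (kO2 1) kC1 (kM1 1) (kEv 1) A f := by
  rw [← cT2_eq, ← cT5_eq, ← cT8_eq, ← cO2_eq, ← cC1_eq, ← cM1_eq, ← cEv_eq]
  rfl

theorem maxX_eq (Ls Lw X : ℕ) : maxX Ls Lw X = maxF (kH 1) Ls Lw X := by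
  rw [← cH_eq]
  rfl

theorem bool_test (T Tb D N1 HN X t : ℕ) : @Bool.rec (fun _ => Bool) false
      (@Bool.rec (fun _ => Bool)
        (Nat.beq (Nat.land (Nat.add X (Nat.mul (Nat.add D t) N1)) HN) HN) true (Nat.ble Tb t))
      (Nat.ble T t) =
    (Nat.ble T t && (Nat.ble Tb t || Nat.beq ((X + (D + t) * N1) &&& HN) HN)) := by
  cases Nat.ble T t <;> cases Nat.ble Tb t <;> rfl

theorem kx_eq (T Tb D N1 HN A Ls Lw f : ℕ) : kx T Tb D N1 HN A Ls Lw f =
    kilX (kT 1 2) (kT 1 5) (kT 1 8) (kO2 1) kC1 (kM1 1) (kEv 1) (kH 1) T Tb D N1 HN A Ls Lw f := by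
  unfold kx kilX
  rw [rowsX_eq]
  generalize rowsF (kT 1 2) (kT 1 5) (kT 1 8) (kO2 1) kC1 (kM1 1) (kEv 1) A f = X
  simp only [maxX_eq]
  generalize maxF (kH 1) Ls Lw X = Y
  exact bool_test T Tb D N1 HN X (Y % 255)

/-- SOUNDNESS of the raw test -/
theorem kx_sound {B : Finset (Finset (Fin 13))} (hB : OddCover B) (h157 : B.card ≤ 157)
    {g a l : ℕ → ℕ} {N : Finset ℕ} {e l' : ℕ} (hN : N ⊆ P1) (hg : ∀ r, g r ≤ 127)
    (ha : ∀ r, a r ≤ 97) (hl : ∀ r, l r ≤ 127) (hl0 : ∀ r, r ∉ P1 → l r = 0)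
    (h : ValidX B g a l N e l') {T Tb D : ℕ}
    (hT : 88 < T + (MM B 10 + MM B 11 + MM B 12)) (h1 : T + e ≤ Tb + l')
    (h2 : D + T + e ≤ 128) (h3 : D + Tb ≤ 129) :
    kx T Tb D (pk 8 1024 (onS N 1)) (pk 8 1024 (onS N 128)) (pk 8 1024 a)
      (pk 8 1024 (fun r => onS P1 128 r - l r)) (pk 8 1024 l) (pk 8 1024 g) = false := by
  rw [kx_eq]
  exact kilX_sound hB h157 hN hg ha hl hl0 h hT h1 h2 h3

end Pool.Agent.Helper64.TY.KilX
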