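import Pool.Agent.Helper64.TY.KilX4
import Pool.Agent.Helper55.TY.M10
import Pool.Agent.Helper33.TY.PBridge

/-!
TH-Y' (stages E, B1a): the kill tests `kx`, `kx4` satisfy the hypothesis `KillOK` of the machine M10.
-/

set_option autoImplicit false
set_option exponentiation.threshold 20000

namespace Pool.Agent.Helper64.TY.KilX

open Finset Pool.Agent.Helper63.SIMD Pool.Agent.Helper97.CV.KillW
open Pool.Agent.Helper89.CV Pool.Agent.Helper97.CV
open Pool.Agent.Helper97.CV.Kill10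
open Pool.Agent.Helper55.TY
open Pool.Agent.Helper79.CV (L mem_L)

/-- what the refined exception uses: bounds of the words `a`, `l` and the low condition -/
structure CtxX (B : Finset (Finset (Fin 13))) (a l : ℕ → ℕ) (N : Finset ℕ) (e l' T Tb D : ℕ) :
    Prop where
  odd : OddCover B
  le157 : B.card ≤ 157
  sub : N ⊆ P1
  a87 : ∀ r, a r ≤ 87
  l127 : ∀ r, l r ≤ 127
  l0 : ∀ r, r ∉ P1 → l r = 0
  off : ∀ z : Fin 13, z.val < 10 → a (2 ^ z.val) ≤ mm B z 10 + mm B z 11 + mm B z 12 + 1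
  low : ∃ s : Fin 13, (∀ z : Fin 13, z.val < 10 → z ≠ s → l (2 ^ z.val) ≤ MM B z) ∧
    (s.val < 10 → l (2 ^ s.val) ≤ MM B s ∨ (2 ^ s.val ∈ N ∧ l (2 ^ s.val) ≤ e ∧ l' ≤ MM B s))
  hT : 88 < T + (MM B 10 + MM B 11 + MM B 12)
  h1 : T + e ≤ Tb + l'
  h2 : D + T + e ≤ 128
  h3 : D + Tb ≤ 129

variable {B : Finset (Finset (Fin 13))} {a l : ℕ → ℕ} {N : Finset ℕ} {e l' T Tb D : ℕ}

theorem CtxX.valid (h : CtxX B a l N e l' T Tb D) {p : ℕ → ℕ}
    (hp : ∀ r ∈ P2, p r ≤ Lam B (ofMask r)) : ValidX B p a l N e l' := by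
  refine ⟨fun z w hz hw hzw => ?_, h.off, h.low⟩
  have hmask : ofMask (2 ^ z.val + 2 ^ w.val) = {z, w} :=
    Pool.Agent.Helper33.TY.ofMask_pair hzw
  have hlt : 2 ^ z.val + 2 ^ w.val < 2 ^ 10 := by
    rcases lt_or_gt_of_ne (fun h1 => hzw (Fin.ext h1) : z.val ≠ w.val) with h1 | h1
    · calc 2 ^ z.val + 2 ^ w.val < 2 ^ w.val + 2 ^ w.val :=
            Nat.add_lt_add_right (Nat.pow_lt_pow_right (by norm_num) h1) _
        _ = 2 ^ (w.val + 1) := by rw [pow_succ]; ring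
        _ ≤ 2 ^ 10 := Nat.pow_le_pow_right (by norm_num) (by omega)
    · calc 2 ^ z.val + 2 ^ w.val < 2 ^ z.val + 2 ^ z.val :=
            Nat.add_lt_add_left (Nat.pow_lt_pow_right (by norm_num) h1) _
        _ = 2 ^ (z.val + 1) := by rw [pow_succ]; ring
        _ ≤ 2 ^ 10 := Nat.pow_le_pow_right (by norm_num) (by omega)
  have hmem : 2 ^ z.val + 2 ^ w.val ∈ P2 := by
    unfold P2
    rw [List.mem_toFinset, mem_L (by norm_num), hmask, card_pair hzw]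
    exact ⟨hlt, rfl⟩
  have h2 := hp _ hmem
  rw [hmask, Lam_pair h.odd hzw] at h2
  omega

theorem le127 (hB : OddCover B) (h157 : B.card ≤ 157) {p : ℕ → ℕ}
    (hp : ∀ r ∈ P2, p r ≤ Lam B (ofMask r)) (hp0 : ∀ r, r ∉ P2 → p r = 0) (r : ℕ) :
    p r ≤ 127 := by
  by_cases hr : r ∈ P2
  · exact ((hp r hr).trans ((M10.Lam_le_empty B _).trans (Lam_empty_le hB h157))).trans
      (by norm_num)
  · rw [hp0 r hr]
    exact Nat.zero_le _

/-- `kx` is sound -/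
theorem CtxX.kx_ok (h : CtxX B a l N e l' T Tb D) :
    M10.KillOK (kx T Tb D (pk 8 1024 (onS N 1)) (pk 8 1024 (onS N 128)) (pk 8 1024 a)
      (pk 8 1024 (fun r => onS P1 128 r - l r)) (pk 8 1024 l)) B := fun _ hp hp0 =>
  kx_sound h.odd h.le157 h.sub (le127 h.odd h.le157 hp hp0) (fun r => (h.a87 r).trans (by norm_num))
    h.l127 h.l0 (h.valid hp) h.hT h.h1 h.h2 h.h3

/-- `kx4` is sound -/
theorem CtxX.kx4_ok (h : CtxX B a l N e l' T Tb D) :
    M10.KillOK (kx4 T Tb D (pk 8 1024 (onS N 1)) (pk 8 1024 (onS N 128)) (pk 8 1024 a)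
      (pk 8 1024 (fun r => onS P1 128 r - l r)) (pk 8 1024 l)) B := fun _ hp hp0 =>
  kx4_sound h.odd h.le157 h.sub (le127 h.odd h.le157 hp hp0) h.a87 h.l127 h.l0 (h.valid hp) h.hT
    h.h1 h.h2 h.h3

end Pool.Agent.Helper64.TY.KilX
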