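import Pool.Agent.Helper33.TY.PBridge

/-!
TH-Y': masks of eleven points, the two facts needed by the search machine on 11 points, without
case checks (`card_ofMask_add_eq`: sizes add up iff the sets are disjoint).
-/

set_option autoImplicit false

namespace Pool.Agent.Helper64.TY.M11Tab

open Finset
open Pool.Agent.Helper89.CV (OddCover ofMask)
open Pool.Agent.Helper97.CV Pool.Agent.Helper79.CV Pool.Agent.Helper33.CV
open Pool.Agent.Helper33.TY
open Pool.Agent.Helper25.TY (R11 mem_R11)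

/-- masks of the quads and of the blocks of the eleven points -/
def Q4 : Finset ℕ := (L 11 4).toFinset
def B5 : Finset ℕ := (L 11 5).toFinset

theorem mem_Q4 {r : ℕ} : r ∈ Q4 ↔ r < 2048 ∧ (ofMask r).card = 4 := by
  unfold Q4
  rw [List.mem_toFinset, mem_L (by norm_num)]
  exact Iff.rfl

theorem mem_B5 {r : ℕ} : r ∈ B5 ↔ r < 2048 ∧ (ofMask r).card = 5 := by
  unfold B5
  rw [List.mem_toFinset, mem_L (by norm_num)]
  exact Iff.rfl

theorem Q4_lt {r : ℕ} (h : r ∈ Q4) : r < 2048 := (mem_Q4.1 h).1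

theorem B5_lt {r : ℕ} (h : r ∈ B5) : r < 2048 := (mem_B5.1 h).1

theorem sub45_iff {r m : ℕ} (hr : r ∈ Q4) (hm : m ∈ B5) :
    ofMask r ⊆ ofMask m ↔ ∃ p ∈ Kill11.P1, r + p = m := by
  rw [mem_Q4] at hr
  rw [mem_B5] at hm
  constructor
  · intro h
    have h1 : (ofMask m \ ofMask r).card = 1 := by
      rw [card_sdiff_of_subset h, hr.2, hm.2]
    obtain ⟨z, hz⟩ := card_eq_one.1 h1
    have hzm : z ∈ ofMask m \ ofMask r := by
      rw [hz]
      exact mem_singleton_self z
    rw [mem_sdiff] at hzm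
    have hz11 : z.val < 11 := mem_R11.1 (ofMask_subset_R11 hm.1 hzm.1)
    have hzp : 2 ^ z.val ≤ 1024 := by
      calc 2 ^ z.val ≤ 2 ^ 10 := Nat.pow_le_pow_right (by norm_num) (by omega)
        _ = 1024 := by norm_num
    refine ⟨2 ^ z.val, ?_, ?_⟩
    · rw [mem_P1_iff, ofMask_two_pow, card_singleton]
      exact ⟨by omega, rfl⟩
    · have h2 : Disjoint (ofMask r) (ofMask (2 ^ z.val)) := by
        rw [ofMask_two_pow, disjoint_singleton_right]
        exact hzm.2
      have h3 := ofMask_add_of_disjoint (a := r) (b := 2 ^ z.val) (by omega) h2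
      have h4 : ofMask (r + 2 ^ z.val) = ofMask m := by
        rw [h3, ofMask_two_pow, ← hz, union_sdiff_of_subset h]
      exact ofMask_injOn (by omega) (by omega) h4
  · rintro ⟨p, hp, rfl⟩
    rw [mem_P1_iff] at hp
    have h1 := (card_ofMask_add_eq (a := r) (b := p) (by omega)).1 (by rw [hm.2, hr.2, hp.2])
    rw [ofMask_add_of_disjoint (by omega) h1]
    exact subset_union_left

theorem sub24_imp {r q : ℕ} (hr : r ∈ Kill11.P2) (hq : q ∈ Kill11.P2) (h4 : r + q ∈ Q4) :
    ofMask r ⊆ ofMask (r + q) := by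
  rw [mem_P2_iff] at hr hq
  rw [mem_Q4] at h4
  have h1 := (card_ofMask_add_eq (a := r) (b := q) (by omega)).1 (by rw [h4.2, hr.2, hq.2])
  rw [ofMask_add_of_disjoint (by omega) h1]
  exact subset_union_left

end Pool.Agent.Helper64.TY.M11Tab
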