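import Pool.Agent.Helper97.CV.Kill11Sound

/-!
TH-Y' (stage T): row caps over the kill test of the frame `K = {11, 12}`.

`Hc` is a word with the fields `127 - h z` at `2 ^ z`, where `h z` is an upper bound of the excess
of the point `z`; the test also fires if some row of the result exceeds its cap.
-/

set_option autoImplicit false
set_option exponentiation.threshold 40000

namespace Pool.Agent.Helper64.TY.Cap11

open Finset Pool.Agent.Helper63.SIMD Pool.Agent.Helper97.CV.KillW Pool.Agent.Helper97.CV.Cube11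
open Pool.Agent.Helper89.CV Pool.Agent.Helper97.CV
open Pool.Agent.Helper97.CV.Kill11

/-- the caps are valid for the cover -/
def Cap (B : Finset (Finset (Fin 13))) (h : ℕ → ℕ) : Prop :=
  ∀ z : Fin 13, z.val < 11 → MM B z ≤ h (2 ^ z.val)

/-- field of the cap word -/
def capF (h : ℕ → ℕ) (r : ℕ) : ℕ := onS P1 127 r - h r

/-- the set of the rows above their caps, as 128 in the fields -/
def hitW (H Hc R : ℕ) : ℕ := (R + Hc) &&& H

theorem hit_lane {w h : ℕ} (hw : w ≤ 127) :
    (w + (127 - h)) &&& 128 = if h < w then 128 else 0 := by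
  rw [land128 (by omega)]
  by_cases h1 : h < w
  · rw [if_pos (by omega), if_pos h1]
  · rw [if_neg (by omega), if_neg h1]

theorem hitW_eq {n : ℕ} {w h : ℕ → ℕ → ℕ} (hw : ∀ i < n, ∀ r, w i r ≤ 127) :
    hitW (kH n) (cube n (fun i => capF (h i))) (cube n w) =
      cube n (fun i r => if r ∈ P1 ∧ h i r < w i r then 128 else 0) := by
  unfold hitW kH
  rw [cube_const, cube_add, cube_land]
  · refine cube_congr fun i hi r _ => ?_
    unfold capF onS
    by_cases hr : r ∈ P1
    · simp only [if_pos hr]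
      rw [hit_lane (hw i hi r)]
      by_cases h1 : h i r < w i r
      · rw [if_pos h1, if_pos ⟨hr, h1⟩]
      · rw [if_neg h1, if_neg fun h2 => h1 h2.2]
    · simp only [if_neg hr, Nat.and_zero]
      rw [if_neg fun h2 => hr h2.1]
  · intro i hi r _
    have h1 := hw i hi r
    show w i r + (onS P1 127 r - h i r) < 2 ^ 8
    unfold onS
    split_ifs <;> omega
  · intro i _ r _
    show onS P1 128 r < 2 ^ 8
    unfold onS
    split_ifs <;> norm_num

/-- no row of a valid lane exceeds its cap -/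
theorem no_hit {B : Finset (Finset (Fin 13))} (hB : OddCover B) {u v p a l h : ℕ → ℕ}
    (hs : Sound B u v p a l) (hc : Cap B h) {r : ℕ} (hr : r ∈ P1) : rF u v p a l r ≤ h r := by
  rw [P1_eq, mem_image] at hr
  obtain ⟨z, hz, rfl⟩ := hr
  rw [mem_range] at hz
  exact (rF_le hB hs ⟨z, by omega⟩ hz).trans (hc ⟨z, by omega⟩ hz)

/-! ### scalar test -/

/-- SCALAR KILL TEST WITH CAPS -/
def kill1c (C2 M2 k2 k5 k8 O2 C1 M1 H Ev T Hc U V P A Ls Lw : ℕ) : Bool :=
  (fun R => Nat.ble T (R % 255) || Nat.ble 1 (hitW H Hc R))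
    (resRun C2 M2 k2 k5 k8 O2 C1 M1 H Ev U V P A Ls Lw)

/-- scalar soundness -/
theorem kill1c_sound {B : Finset (Finset (Fin 13))} (hB : OddCover B) (h157 : B.card ≤ 157)
    {u v p a l h : ℕ → ℕ} (hok : Ok u v p a l) (hs : Sound B u v p a l) (hc : Cap B h) {T : ℕ}
    (hT : 88 < T + (MM B 11 + MM B 12)) :
    kill1c kC2 (kM2 1) (kT 1 2) (kT 1 5) (kT 1 8) (kO2 1) kC1 (kM1 1) (kH 1) (kEv 1) T
      (pk 8 2048 (capF h)) (pk 8 2048 u) (pk 8 2048 v) (pk 8 2048 p) (pk 8 2048 a)
      (pk 8 2048 (fun r => onS P1 128 r - l r)) (pk 8 2048 l) = false := by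
  have h1 := kill1_sound hB h157 hok hs hT
  unfold kill1 at h1
  unfold kill1c
  simp only []
  rw [h1, Bool.false_or]
  have h2 := resRun_eq (n := 1) (u := fun _ => u) (v := fun _ => v) (p := fun _ => p)
    (a := fun _ => a) (l := fun _ => l) (fun _ _ => hok)
  rw [cube_one, cube_one, cube_one, cube_one, cube_one, cube_one] at h2
  rw [h2]
  have h3 := cube_one (fun _ => capF h)
  rw [← h3]
  rw [hitW_eq fun _ _ r => rF_le127 hok r]
  have h4 : cube 1 (fun _ r => if r ∈ P1 ∧ h r < rF u v p a l r then 128 else 0) = 0 := by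
    have h5 : cube 1 (fun _ r => if r ∈ P1 ∧ h r < rF u v p a l r then 128 else 0) =
        cube 1 (fun _ _ => 0) := by
      refine cube_congr fun _ _ r _ => ?_
      rw [if_neg]
      rintro ⟨h6, h7⟩
      exact absurd (no_hit hB hs hc h6) (by omega)
    rw [h5, cube_one]
    unfold pk
    simp
  rw [h4]
  rfl

/-! ### lanes -/

/-- bit 0 of a lane: some row of the lane exceeds its cap; `Y` is the word of the hits -/
def hitN (C1 M0 O0 Y : ℕ) : ℕ :=
  (((((Y >>> 7) * C1) >>> (8 * 1024)) &&& M0) + M0) >>> 8 &&& O0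

/-- LANE KILL TEST WITH CAPS -/
def killNc (C2 M2 k2 k5 k8 O2 C1 M1 H Ev M0 O0 Tw Hc U V P A Ls Lw : ℕ) : ℕ :=
  (fun R => (((((R * C1) >>> (8 * 1024)) &&& M0) + Tw) >>> 8 &&& O0) |||
      hitN C1 M0 O0 (hitW H Hc R))
    (resRun C2 M2 k2 k5 k8 O2 C1 M1 H Ev U V P A Ls Lw)

theorem hitN_eq {n : ℕ} {c : ℕ → ℕ → Prop} [∀ i r, Decidable (c i r)]
    (hc : ∀ i r, c i r → r ∈ P1) :
    hitN kC1 (kM0 n) (kO0 n) (cube n (fun i r => if c i r then 128 else 0)) =
      pk 32768 n (fun i => if 1 ≤ (∑ z ∈ range 11, if c i (2 ^ z) then 1 else 0) then 1 else 0) := by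
  have e1 : (cube n (fun i r => if c i r then 128 else 0)) >>> 7 =
      cube n (fun i r => if c i r then 1 else 0) := by
    have e2 : cube n (fun i r => if c i r then 128 else 0) =
        2 ^ 7 * cube n (fun i r => if c i r then 1 else 0) := by
      unfold cube
      rw [mul_pk]
      refine pk_congr fun i _ => ?_
      rw [mul_pk]
      refine pk_congr fun r _ => ?_
      show (if c i r then 128 else 0) = 2 ^ 7 * (if c i r then 1 else 0)
      split_ifs <;> norm_num
    rw [e2, Nat.shiftRight_eq_div_pow, Nat.mul_div_cancel_left _ (Nat.two_pow_pos 7)]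
  have hw : ∀ i r, (if c i r then 1 else 0) ≤ 127 := by
    intro i r
    split_ifs <;> norm_num
  have hw0 : ∀ i r, r ∉ P1 → (if c i r then 1 else 0) = 0 := fun i r hr =>
    if_neg fun h => hr (hc i r h)
  unfold hitN
  rw [e1]
  have h1 : ((cube n (fun i r => if c i r then 1 else 0) * kC1) >>> (8 * 1024)) &&& kM0 n =
      pk 32768 n (fun i => (∑ z ∈ range 11, if c i (2 ^ z) then 1 else 0) % 256) := by
    unfold cube kM0 kC1
    rw [mul_rep (by norm_num), mul_comm, mul_pk, lane_shr_land (by norm_num)]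
    · refine pk_congr fun i hi => ?_
      rw [mul_comm]
      exact lane_total (fun r => hw i r) (fun r hr => hw0 i r hr)
    · intro i hi
      have h2 : pk 8 2048 (fun r => if c i r then 1 else 0) < 2 ^ (8 * 2048) :=
        pk_lt fun r _ => by have := hw i r; omega
      have h3 : corrC 1024 P1 ≤ 2 ^ (8 * 1024) := by decide +kernel
      calc corrC 1024 P1 * pk 8 2048 (fun r => if c i r then 1 else 0)
          < 2 ^ (8 * 1024) * 2 ^ (8 * 2048) :=
            Nat.mul_lt_mul_of_le_of_lt h3 h2 (Nat.two_pow_pos _)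
        _ = 2 ^ (8 * 1024 + 8 * 2048) := (pow_add 2 _ _).symm
        _ ≤ 2 ^ 32768 := Nat.pow_le_pow_right (by norm_num) (by norm_num)
    · intro i _
      calc (255 : ℕ) < 2 ^ 8 := by norm_num
        _ ≤ 2 ^ (32768 - 8 * 1024) := Nat.pow_le_pow_right (by norm_num) (by norm_num)
  have h11 : ∀ i, (∑ z ∈ range 11, if c i (2 ^ z) then 1 else 0) ≤ 11 := by
    intro i
    calc (∑ z ∈ range 11, if c i (2 ^ z) then 1 else 0) ≤ ∑ _z ∈ range 11, 1 := by
          refine sum_le_sum fun z _ => ?_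
          split_ifs <;> norm_num
      _ = 11 := by simp
  rw [h1]
  have hM : kM0 n = pk 32768 n (fun _ => 255) := by
    unfold kM0
    exact mul_rep (by norm_num) _
  rw [hM, pk_add]
  unfold kO0
  rw [mul_rep (by norm_num), lane_shr_land (by norm_num)]
  · refine pk_congr fun i _ => ?_
    rw [Nat.shiftRight_eq_div_pow, Nat.and_one_is_mod]
    have h4 := h11 i
    by_cases h6 : 1 ≤ (∑ z ∈ range 11, if c i (2 ^ z) then 1 else 0)
    · rw [if_pos h6]
      omega
    · rw [if_neg h6]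
      omega
  · intro i _
    have h4 := h11 i
    calc (∑ z ∈ range 11, if c i (2 ^ z) then 1 else 0) % 256 + 255 < 2 ^ 10 := by omega
      _ ≤ 2 ^ 32768 := Nat.pow_le_pow_right (by norm_num) (by norm_num)
  · intro i _
    exact Nat.one_lt_two_pow (by norm_num)

/-- THE LANE PROGRAM IS CORRECT -/
theorem killNc_eq {n : ℕ} {u v p a l h : ℕ → ℕ → ℕ}
    (hok : ∀ i < n, Ok (u i) (v i) (p i) (a i) (l i)) {T : ℕ → ℕ} (hT : ∀ i, T i ≤ 256) :
    killNc kC2 (kM2 n) (kT n 2) (kT n 5) (kT n 8) (kO2 n) kC1 (kM1 n) (kH n) (kEv n) (kM0 n) (kO0 n)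
      (pk 32768 n (fun i => 256 - T i)) (cube n (fun i => capF (h i)))
      (cube n u) (cube n v) (cube n p) (cube n a) (cube n (fun i r => onS P1 128 r - l i r))
      (cube n l) = pk 32768 n (fun i => if T i ≤
        (∑ z ∈ range 11, rF (u i) (v i) (p i) (a i) (l i) (2 ^ z)) % 256 ∨
        1 ≤ (∑ z ∈ range 11, if 2 ^ z ∈ P1 ∧ h i (2 ^ z) <
          rF (u i) (v i) (p i) (a i) (l i) (2 ^ z) then 1 else 0) then 1 else 0) := by
  have h1 := killN_eq hok hT
  unfold killN at h1
  unfold killNc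
  simp only []
  rw [h1, resRun_eq hok, hitW_eq fun i hi r => rF_le127 (hok i hi) r,
    hitN_eq (c := fun i r => r ∈ P1 ∧ h i r < rF (u i) (v i) (p i) (a i) (l i) r)
      (fun i r hr => hr.1), pk_lor]
  · refine pk_congr fun i _ => ?_
    by_cases h2 : T i ≤ (∑ z ∈ range 11, rF (u i) (v i) (p i) (a i) (l i) (2 ^ z)) % 256
    · rw [if_pos h2, if_pos (Or.inl h2)]
      split_ifs <;> rfl
    · rw [if_neg h2]
      by_cases h3 : 1 ≤ (∑ z ∈ range 11, if 2 ^ z ∈ P1 ∧ h i (2 ^ z) <
          rF (u i) (v i) (p i) (a i) (l i) (2 ^ z) then 1 else 0)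
      · rw [if_pos h3, if_pos (Or.inr h3)]
        rfl
      · rw [if_neg h3, if_neg (by tauto)]
        rfl
  · intro i _
    split_ifs
    · exact Nat.one_lt_two_pow (by norm_num)
    · exact Nat.two_pow_pos _
  · intro i _
    split_ifs
    · exact Nat.one_lt_two_pow (by norm_num)
    · exact Nat.two_pow_pos _

/-- lane soundness: the bit of a lane with valid data and valid caps is zero -/
theorem killNc_sound {B : Finset (Finset (Fin 13))} (hB : OddCover B) (h157 : B.card ≤ 157)
    {n : ℕ} {u v p a l h : ℕ → ℕ → ℕ} (hok : ∀ i < n, Ok (u i) (v i) (p i) (a i) (l i))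
    {T : ℕ → ℕ} (hT : ∀ i, T i ≤ 256) {i : ℕ} (hi : i < n)
    (hs : Sound B (u i) (v i) (p i) (a i) (l i)) (hc : Cap B (h i))
    (hTi : 88 < T i + (MM B 11 + MM B 12)) :
    fld 32768 (killNc kC2 (kM2 n) (kT n 2) (kT n 5) (kT n 8) (kO2 n) kC1 (kM1 n) (kH n) (kEv n)
      (kM0 n) (kO0 n) (pk 32768 n (fun i => 256 - T i)) (cube n (fun i => capF (h i)))
      (cube n u) (cube n v) (cube n p) (cube n a) (cube n (fun i r => onS P1 128 r - l i r))
      (cube n l)) i = 0 := by
  rw [killNc_eq hok hT, fld_pk _ hi]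
  · have h1 := total_le hB h157 hs
    have h2 := Nat.mod_le (∑ z ∈ range 11, rF (u i) (v i) (p i) (a i) (l i) (2 ^ z)) 256
    refine if_neg ?_
    rintro (h3 | h3)
    · omega
    · have h4 : (∑ z ∈ range 11, if 2 ^ z ∈ P1 ∧ h i (2 ^ z) <
          rF (u i) (v i) (p i) (a i) (l i) (2 ^ z) then 1 else 0) = 0 := by
        refine sum_eq_zero fun z _ => if_neg ?_
        rintro ⟨h5, h6⟩
        exact absurd (no_hit hB hs hc h5) (by omega)
      omega
  · intro j _
    split_ifs
    · exact Nat.one_lt_two_pow (by norm_num)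
    · exact Nat.two_pow_pos _

end Pool.Agent.Helper64.TY.Cap11
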