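import Pool.Agent.Helper33.TY.PFin

/-!
TH-Y' (stage T): the kill test of the pair frame when all outside points have `MM` 6 or 8, neighbours
of the pair have 8, and at most seven points have 8.

`k7 A8 A10 L8 f`: rows `Y` = sums over `v` of `(f + 1) / 3` (one product by 11, exact because
`Lam <= 10`); the configuration is dead if at least one row is `>= 9` or at least eight points have
row `>= 7` or are neighbours of the pair (one digit sum, marks 8 and 1).
-/

set_option autoImplicit false
set_option exponentiation.threshold 20000

namespace Pool.Agent.Helper64.TY.K7

open Finset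
open Pool.Agent.Helper89.CV (OddCover ofMask)
open Pool.Agent.Helper97.CV Pool.Agent.Helper79.CV Pool.Agent.Helper33.CV
open Pool.Agent.Helper33.TY
open Pool.Agent.Helper63.SIMD
open Pool.Agent.Helper25.TY (R11 mem_R11)

/-! ## constants -/

def m7_2 : ℕ := 0x7000000000000000000000000000000000000000000000000000000000000000000000000000000000000000000000000000000000000000000000000000000000000000000000000000000000000000000000000000000000000000000000000000000000000000000000000000000000000000000000000000000000000000000000000000000000000000000000000000000000000000000000000000000000000000000000000000000000000000000000000000000000000000000000000000000000000000000000000000000000000000000000000000000000000000000000000000000000000000000000000000000000000000000000000000000070000000000000000000000000000000000000000000000000000000000000000000000000000000000000000000000000000000000000000000000000000000000000000000000000000000000000000000000000000000000000000000000000000000000000000000000000000000000000000000000000000000000000007000000000000000000000000000000000000000000000000000000000000000000000000000000000000000000000000000000000000000000000000000000070000000000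0000000000000000000000000000000000000000000000000000070000000000000000000000000000000700000000000000070000000700070700000000000000000000000000000000000000000000000000000000000000000000000000000000000000000000000000000000000000000000000000000000000000000000000000000000000000000000000000000000000000000000000000000000000000000000000000000000000000000000000000000000000000000000000000000000000000000000000000000000000000000000000000000000000000000000000000000000000000000000000000000000000000000000000000000000000000000000000000000000000000000000000000000000000000000000000000000000000000000000000000000000000000000000000000000000070000000000000000000000000000000000000000000000000000000000000000000000000000000000000000000000000000000000000000000000000000000000000000000000000000000000000000000000000000000000000000000000000000000000000000000000000000000000000000000000000000000000000007000000000000000000000000000000000000000000000000000000000000000000000000000000000000000000000000000000000000000000000000000000070000000000000000000000000000000000000000000000000000000000000007000000000000000000000000000000070000000000000007000000070007070000000000000000000000000000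00000000000000000000000000000000000000000000000000000000000000000000000000000000000000000000000000000000000000000000000000000000000000000000000000000000000000000000000000000000000000000000000000000000000000000000000000000000000007000000000000000000000000000000000000000000000000000000000000000000000000000000000000000000000000000000000000000000000000000000070000000000000000000000000000000000000000000000000000000000000007000000000000000000000000000000070000000000000007000000070007070000000000000000000000000000000000000000000000000000000000000000000000000000000000000000000000000000000000000000000000000000000007000000000000000000000000000000000000000000000000000000000000000700000000000000000000000000000007000000000000000700000007000707000000000000000000000000000000000000000000000000000000000000000007000000000000000000000000000000070000000000000007000000070007070000000000000000000000000000000007000000000000000700000007000707000000000000000007000000070007070000000007000707000007070007000000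

def m121_1 : ℕ := 0x790000000000000000000000000000000000000000000000000000000000000000000000000000000000000000000000000000000000000000000000000000000000000000000000000000000000000000000000000000000000000000000000000000000000000000000000000000000000000000000000000000000000000000000000000000000000000000000000000000000000000000000000000000000000000000000000000000000000000000000000000000000000000000000000000000000000000000000000000000000000000000000000000000000000000000000000000000000000000000000000000000000000000000000000000000000000000000000000000000000000000000000000000000000000000000000000000000000000000000000000000000000000000000000000000000000000000000000000000000000000000000000000000000000000000000000000000000000000000000000000000000000000000000000000000000000000000000000000000000000000000000000000000000000000000000000000000000000000000000000000000000000000000000000000000000000000000000000000000000000000000000000000000000000000000000000000000000000000000000000000000000000000000000000000000000000000000000000000000000000000000079000000000000000000000000000000000000000000000000000000000000000000000000000000000000000000000000000000000000000000000000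0000000000000000000000000000000000000000000000000000000000000000000000000000000000000000000000000000000000000000000000000000000000000000000000000000000000000000000000000000000000000000000000000000000000000000000000000000000000000000000000000000000000000000000000000000000000000000000000000000000000000000000000000000000000000000000000000000000000000000000000000000000000000000000000000000007900000000000000000000000000000000000000000000000000000000000000000000000000000000000000000000000000000000000000000000000000000000000000000000000000000000000000000000000000000000000000000000000000000000000000000000000000000000000000000000000000000000000000790000000000000000000000000000000000000000000000000000000000000000000000000000000000000000000000000000000000000000000000000000007900000000000000000000000000000000000000000000000000000000000000790000000000000000000000000000007900000000000000790000007900797900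

def m119_1 : ℕ := 0x770000000000000000000000000000000000000000000000000000000000000000000000000000000000000000000000000000000000000000000000000000000000000000000000000000000000000000000000000000000000000000000000000000000000000000000000000000000000000000000000000000000000000000000000000000000000000000000000000000000000000000000000000000000000000000000000000000000000000000000000000000000000000000000000000000000000000000000000000000000000000000000000000000000000000000000000000000000000000000000000000000000000000000000000000000000000000000000000000000000000000000000000000000000000000000000000000000000000000000000000000000000000000000000000000000000000000000000000000000000000000000000000000000000000000000000000000000000000000000000000000000000000000000000000000000000000000000000000000000000000000000000000000000000000000000000000000000000000000000000000000000000000000000000000000000000000000000000000000000000000000000000000000000000000000000000000000000000000000000000000000000000000000000000000000000000000000000000000000000000000000077000000000000000000000000000000000000000000000000000000000000000000000000000000000000000000000000000000000000000000000000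0000000000000000000000000000000000000000000000000000000000000000000000000000000000000000000000000000000000000000000000000000000000000000000000000000000000000000000000000000000000000000000000000000000000000000000000000000000000000000000000000000000000000000000000000000000000000000000000000000000000000000000000000000000000000000000000000000000000000000000000000000000000000000000000000000007700000000000000000000000000000000000000000000000000000000000000000000000000000000000000000000000000000000000000000000000000000000000000000000000000000000000000000000000000000000000000000000000000000000000000000000000000000000000000000000000000000000000000770000000000000000000000000000000000000000000000000000000000000000000000000000000000000000000000000000000000000000000000000000007700000000000000000000000000000000000000000000000000000000000000770000000000000000000000000000007700000000000000770000007700777700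

theorem m7_2_eq : m7_2 = lay 7 2 := by
  rw [← lay8_lay]
  exact Nat.eq_of_beq_eq_true (by decide +kernel)

theorem m121_1_eq : m121_1 = lay 121 1 := by
  rw [← lay8_lay]
  exact Nat.eq_of_beq_eq_true (by decide +kernel)

theorem m119_1_eq : m119_1 = lay 119 1 := by
  rw [← lay8_lay]
  exact Nat.eq_of_beq_eq_true (by decide +kernel)

/-! ## the context -/

/-- what the kill test of stage T uses -/
structure TH (B : Finset (Finset (Fin 13))) : Prop where
  odd : OddCover B
  le157 : B.card ≤ 157
  le8 : ∀ u : Fin 13, u.val < 11 → MM B u ≤ 8
  nb : ∀ u : Fin 13, u.val < 11 → 1 ≤ mm B 12 u + mm B 11 u → 8 ≤ MM B u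
  seven : (R11.filter fun u => 8 ≤ MM B u).card ≤ 7

/-- excess of a pair of outside points -/
theorem TH.lam {B : Finset (Finset (Fin 13))} (h : TH B) {s : Finset (Fin 13)} (hs : s ⊆ R11)
    (h2 : s.card = 2) : Lam B s ≤ 10 := by
  obtain ⟨z, w, hzw, rfl⟩ := card_eq_two.1 h2
  have h3 := three_mm_le h.odd hzw
  have h4 := h.le8 z (mem_R11.1 (hs (mem_insert_self _ _)))
  have h5 := Lam_pair h.odd hzw
  omega

theorem MM_split11 {B : Finset (Finset (Fin 13))} {u : Fin 13} (hu : u.val < 11) :
    MM B u = mm B 12 u + mm B 11 u + ∑ v ∈ R11.erase u, mm B u v := by
  unfold MM
  rw [Pool.Agent.Helper25.TY.compl_eq_R11 hu, sum_insert (by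
      rw [mem_insert, mem_erase, mem_R11]
      rintro (h | h)
      · exact absurd h (by decide)
      · exact absurd h.2 (by decide)), sum_insert (by
      rw [mem_erase, mem_R11]
      exact fun h => absurd h.2 (by decide)), mm_comm B u 12, mm_comm B u 11]
  omega

/-! ## the program -/

/-- `A8`, `A10`: offsets with the thresholds 7 and 9; `L8`: 128 at the neighbours of the pair -/
def k7 (A8 A10 L8 f : ℕ) : Bool :=
  (fun Y => Nat.ble 8 (Nat.mod (Nat.add
      (Nat.shiftRight (Nat.lor (Nat.land (Nat.add Y A8) m128_1) L8) 7)
      (Nat.shiftRight (Nat.land (Nat.add Y A10) m128_1) 4)) 255))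
  (Nat.shiftRight (Nat.mul (Nat.land (Nat.shiftRight (Nat.mul (Nat.add f m1_2) 11) 5) m7_2) kC1)
    8192)

/-- offsets -/
def aA (B : Finset (Finset (Fin 13))) (c : ℕ) (s : Finset (Fin 13)) : ℕ :=
  if s.card = 1 then ∑ u ∈ s, (mm B 12 u + mm B 11 u) + c else 0

/-- neighbours -/
def l8 (B : Finset (Finset (Fin 13))) (s : Finset (Fin 13)) : ℕ :=
  if s.card = 1 ∧ 1 ≤ ∑ u ∈ s, (mm B 12 u + mm B 11 u) then 128 else 0

/-- lower bounds of the pair excesses -/
def tS (w : Finset (Fin 13) → ℕ) (s : Finset (Fin 13)) : ℕ :=
  if s.card = 2 then (w s + 1) / 3 else 0

theorem third {x : ℕ} (h : x ≤ 10) : ((x + 1) * 11) >>> 5 &&& 7 = (x + 1) / 3 := by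
  interval_cases x <;> decide

/-- one product gives the pair excesses -/
theorem t_eq {w : Finset (Fin 13) → ℕ} (hw : ∀ s ⊆ R11, w s ≤ 10) :
    ((bw w + m1_2) * 11) >>> 5 &&& m7_2 = bw (tS w) := by
  rw [m1_2_eq, m7_2_eq]
  unfold lay
  rw [bw_add, Nat.mul_comm, bw_mul]
  unfold bw
  rw [Cube11.lane_shr_land (by norm_num)]
  · refine pk_congr fun m hm => ?_
    have h1 := hw _ (ofMask_subset_R11 hm)
    unfold tS
    by_cases h2 : (ofMask m).card = 2
    · simp only [if_pos h2]
      rw [Nat.mul_comm]
      exact third h1
    · simp only [if_neg h2, Nat.and_zero]
  · intro m hm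
    have h1 := hw _ (ofMask_subset_R11 hm)
    show 11 * (w (ofMask m) + if (ofMask m).card = 2 then 1 else 0) < 2 ^ 8
    split_ifs <;> omega
  · intro m _
    show (if (ofMask m).card = 2 then 7 else 0) < 2 ^ (8 - 5)
    split_ifs <;> norm_num

/-- row sums -/
def zS (w : Finset (Fin 13) → ℕ) (s : Finset (Fin 13)) : ℕ :=
  if s.card = 1 then ∑ v ∈ R11 \ s, tS w (insert v s) else 0

/-- the correlation as a packed number -/
theorem y_eq {w : Finset (Fin 13) → ℕ} (hw : ∀ s ⊆ R11, w s ≤ 10) :
    ∃ y : ℕ → ℕ, (bw (tS w) * kC1) >>> 8192 = pk 8 2048 y ∧ (∀ m, y m ≤ 33) ∧
      ∀ m < 2048, (ofMask m).card = 1 → y m = zS w (ofMask m) := by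
  have hcor : ∀ W, (W * kC1) >>> 8192 = corr 1024 (cC 1024 (L 11 1)) W := by
    intro W
    rw [← kC1_eq]
    rfl
  have ht3 : ∀ s ⊆ R11, tS w s ≤ 3 := by
    intro s hs
    have := hw s hs
    unfold tS
    split_ifs
    · omega
    · omega
  have h1 : bw (tS w) = pk 8 2048 (mkF (tS w)) := (pk_mkF _).symm
  have hF : ∀ m, mkF (tS w) m ≤ 3 := by
    intro m
    unfold mkF
    split_ifs with h
    · exact ht3 _ (ofMask_subset_R11 h)
    · exact Nat.zero_le _
  have hL : ∀ c ∈ L 11 1, c ≤ 1024 := by decide
  have hlen : (L 11 1).length = 11 := by
    rw [length_L]
    rfl
  have h2 := corr_pk (N := 2048) (K := 1024) (b := 3) (a := mkF (tS w))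
    (fun i hi => if_neg (by omega)) hF (cs := L 11 1) hL (by rw [hlen]; norm_num)
  set y : ℕ → ℕ := fun m => ((L 11 1).map fun c => mkF (tS w) (m + c)).sum with hy
  have hy33 : ∀ m, y m ≤ 33 := by
    intro m
    have h3 := sum_map_le (L 11 1) (fun c => mkF (tS w) (m + c)) (b := 3) fun c _ => hF _
    rw [hlen] at h3
    exact h3
  refine ⟨y, by rw [hcor, h1, h2], hy33, ?_⟩
  -- compare with the masked correlation
  have h4 := corr_bw (g := tS w) (i := 1) (j := 1) (b := 3) (K := 1024)
    (fun s _ hs => if_neg (by omega)) ht3 hL (by decide)
  rw [h1, h2] at h4
  have h5 : pk 8 2048 y &&& lay 255 1 =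
      pk 8 2048 (fun m => if (ofMask m).card = 1 then y m else 0) := by
    unfold lay bw
    rw [pk_land (fun m _ => by have := hy33 m; omega) (fun m _ => by
      show (if (ofMask m).card = 1 then 255 else 0) < 2 ^ 8
      split_ifs <;> norm_num)]
    refine pk_congr fun m _ => ?_
    have := hy33 m
    by_cases h6 : (ofMask m).card = 1
    · simp only [if_pos h6]
      exact land_255 (by omega)
    · simp only [if_neg h6, Nat.and_zero]
  rw [h5] at h4
  intro m hm hc
  have h6 := congrArg (fun W => fld 8 W m) h4
  rw [fld_pk _ hm, fld_bw _ hm, if_pos hc, if_pos hc] at h6
  · rw [h6, sum_disj_one (s := ofMask m) (tS w)]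
    unfold zS
    rw [if_pos hc]
  · intro s hs
    split_ifs with h7
    · rw [sum_disj_one (s := s) (tS w)]
      have h8 : ∑ v ∈ R11 \ s, tS w (insert v s) ≤ ∑ _v ∈ R11, 3 := by
        refine le_trans (sum_le_sum fun v hv => ht3 _ ?_) (sum_le_sum_of_subset sdiff_subset)
        exact insert_subset (mem_sdiff.1 hv).1 hs
      have h9 : R11.card = 11 := by decide
      rw [sum_const, h9, smul_eq_mul] at h8
      omega
    · norm_num
  · intro m _
    have := hy33 m
    show (if _ then y m else 0) < 2 ^ 8
    split_ifs <;> omega

theorem land_128 {x : ℕ} (h : x < 256) : x &&& 128 = if 128 ≤ x then 128 else 0 :=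
  Kill11.land128 h

/-- thresholds on the rows: `(Y + A) land 128` -/
theorem thr_bw {y : ℕ → ℕ} {z A : Finset (Fin 13) → ℕ} (hy : ∀ m, y m ≤ 33)
    (hyz : ∀ m < 2048, (ofMask m).card = 1 → y m = z (ofMask m))
    (hA : ∀ s ⊆ R11, A s ≤ 190) :
    (pk 8 2048 y + bw A) &&& m128_1 =
      bw fun s => if s.card = 1 ∧ 128 ≤ z s + A s then 128 else 0 := by
  rw [m128_1_eq]
  unfold lay bw
  rw [pk_add, pk_land]
  · refine pk_congr fun m hm => ?_
    have h1 := hy m
    have h2 := hA _ (ofMask_subset_R11 hm)
    by_cases h3 : (ofMask m).card = 1
    · simp only [if_pos h3]
      rw [land_128 (by omega), hyz m hm h3]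
      by_cases h4 : 128 ≤ z (ofMask m) + A (ofMask m)
      · rw [if_pos h4, if_pos ⟨h3, h4⟩]
      · rw [if_neg h4, if_neg fun h => h4 h.2]
    · simp only [if_neg h3, Nat.and_zero]
      rw [if_neg fun h => h3 h.1]
  · intro m hm
    have h1 := hy m
    have h2 := hA _ (ofMask_subset_R11 hm)
    show y m + A (ofMask m) < 2 ^ 8
    omega
  · intro m _
    show (if (ofMask m).card = 1 then 128 else 0) < 2 ^ 8
    split_ifs <;> norm_num

theorem shr_mark {c : Finset (Fin 13) → Prop} [DecidablePred c] {a b : ℕ} (hab : a + b = 7) :
    (bw fun s => if c s then 128 else 0) >>> a = bw fun s => if c s then 2 ^ b else 0 := by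
  have h1 : (bw fun s => if c s then 128 else 0) = 2 ^ a * bw fun s => if c s then 2 ^ b else 0 := by
    rw [bw_mul]
    refine bw_congr fun s _ => ?_
    split_ifs
    · rw [← pow_add, hab]
      norm_num
    · rfl
  rw [h1, Nat.shiftRight_eq_div_pow, Nat.mul_div_cancel_left _ (Nat.two_pow_pos a)]

/-- digit sum of a word living on the points -/
theorem bw_mod255 {g : Finset (Fin 13) → ℕ} (hg : ∀ s : Finset (Fin 13), s.card ≠ 1 → g s = 0) :
    bw g % 255 ≤ ∑ u ∈ R11, g {u} := by
  have h1 := Kill11.pk_mod255 2048 (fun m => g (ofMask m))
  refine le_trans h1 (le_of_eq ?_)
  have h2 : ∑ m ∈ range 2048, g (ofMask m) =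
      ∑ m ∈ (range 2048).filter (fun m => (ofMask m).card = 1), g (ofMask m) := by
    rw [sum_filter]
    refine sum_congr rfl fun m _ => ?_
    split_ifs with h
    · rfl
    · exact hg _ h
  rw [h2]
  refine (sum_bij (fun u _ => 2 ^ u.val) ?_ ?_ ?_ ?_).symm
  · intro u hu
    have hu' := mem_R11.1 hu
    rw [mem_filter, mem_range, ofMask_two_pow, card_singleton]
    refine ⟨?_, rfl⟩
    calc 2 ^ u.val < 2 ^ 11 := Nat.pow_lt_pow_right (by norm_num) hu'
      _ = 2048 := by norm_num
  · intro a _ b _ h
    exact Fin.ext (Nat.pow_right_injective (le_refl 2) h)
  · intro m hm
    rw [mem_filter, mem_range] at hm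
    obtain ⟨u, hu⟩ := card_eq_one.1 hm.2
    have h3 : u ∈ R11 := by
      have := ofMask_subset_R11 hm.1
      rw [hu, singleton_subset_iff] at this
      exact this
    refine ⟨u, h3, ?_⟩
    have h4 : ofMask (2 ^ u.val) = ofMask m := by rw [ofMask_two_pow, hu]
    have h5 := mem_R11.1 h3
    have h6 : 2 ^ u.val < 2 ^ 11 := Nat.pow_lt_pow_right (by norm_num) h5
    exact ofMask_injOn (by
      norm_num at h6 ⊢
      omega) (by omega) h4
  · intro u _
    rw [ofMask_two_pow]

/-- THE TEST IS SOUND -/
theorem k7_false {B : Finset (Finset (Fin 13))} (hT : TH B) {w : Finset (Fin 13) → ℕ}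
    (hw : ∀ s : Finset (Fin 13), s.card ≠ 2 → w s = 0)
    (hL : ∀ s ⊆ R11, s.card = 2 → w s ≤ Lam B s) :
    k7 (bw (aA B 121)) (bw (aA B 119)) (bw (l8 B)) (bw w) = false := by
  have hw10 : ∀ s ⊆ R11, w s ≤ 10 := by
    intro s hs
    by_cases h2 : s.card = 2
    · exact (hL s hs h2).trans (hT.lam hs h2)
    · rw [hw s h2]
      exact Nat.zero_le _
  obtain ⟨y, hY, hy33, hyz⟩ := y_eq hw10
  have hprog : k7 (bw (aA B 121)) (bw (aA B 119)) (bw (l8 B)) (bw w) =
      Nat.ble 8 (((((pk 8 2048 y + bw (aA B 121)) &&& m128_1) ||| bw (l8 B)) >>> 7 +
        ((pk 8 2048 y + bw (aA B 119)) &&& m128_1) >>> 4) % 255) := by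
    rw [← hY, ← t_eq hw10]
    rfl
  have hA : ∀ c ≤ 130, ∀ s ⊆ R11, aA B c s ≤ 190 := by
    intro c hc s hs
    unfold aA
    split_ifs with h
    · obtain ⟨u, rfl⟩ := card_eq_one.1 h
      rw [sum_singleton]
      have := hrow_le hT.odd hT.le157 (mem_R11.1 (singleton_subset_iff.1 hs))
      omega
    · omega
  -- the marks
  have h8 : (((pk 8 2048 y + bw (aA B 121)) &&& m128_1) ||| bw (l8 B)) >>> 7 =
      bw fun s => if s.card = 1 ∧ (128 ≤ zS w s + aA B 121 s ∨
        1 ≤ ∑ u ∈ s, (mm B 12 u + mm B 11 u)) then 2 ^ 0 else 0 := by
    rw [thr_bw hy33 hyz (hA 121 (by norm_num))]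
    have h9 : (bw fun s => if s.card = 1 ∧ 128 ≤ zS w s + aA B 121 s then 128 else 0) |||
        bw (l8 B) = bw fun s => if (s.card = 1 ∧ (128 ≤ zS w s + aA B 121 s ∨
          1 ≤ ∑ u ∈ s, (mm B 12 u + mm B 11 u))) then 128 else 0 := by
      unfold bw
      rw [pk_lor]
      · refine pk_congr fun m _ => ?_
        unfold l8
        beta_reduce
        by_cases h1 : (ofMask m).card = 1
        · by_cases h2 : 128 ≤ zS w (ofMask m) + aA B 121 (ofMask m)
          · by_cases h3 : 1 ≤ ∑ u ∈ ofMask m, (mm B 12 u + mm B 11 u)
            · rw [if_pos ⟨h1, h2⟩, if_pos ⟨h1, h3⟩, if_pos ⟨h1, Or.inl h2⟩]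
              rfl
            · rw [if_pos ⟨h1, h2⟩, if_neg fun h => h3 h.2, if_pos ⟨h1, Or.inl h2⟩]
              rfl
          · by_cases h3 : 1 ≤ ∑ u ∈ ofMask m, (mm B 12 u + mm B 11 u)
            · rw [if_neg fun h => h2 h.2, if_pos ⟨h1, h3⟩, if_pos ⟨h1, Or.inr h3⟩]
              rfl
            · rw [if_neg fun h => h2 h.2, if_neg fun h => h3 h.2,
                if_neg fun h => h.2.elim h2 h3]
              rfl
        · rw [if_neg fun h => h1 h.1, if_neg fun h => h1 h.1, if_neg fun h => h1 h.1]
          rfl
      · intro m _
        show (if _ then 128 else 0) < 2 ^ 8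
        split_ifs <;> norm_num
      · intro m _
        unfold l8
        split_ifs <;> norm_num
    rw [h9, shr_mark (a := 7) (b := 0) (by norm_num)]
  have h10 : ((pk 8 2048 y + bw (aA B 119)) &&& m128_1) >>> 4 =
      bw fun s => if s.card = 1 ∧ 128 ≤ zS w s + aA B 119 s then 2 ^ 3 else 0 := by
    rw [thr_bw hy33 hyz (hA 119 (by norm_num)), shr_mark (a := 4) (b := 3) (by norm_num)]
  rw [hprog, h8, h10, bw_add]
  -- the real rows
  have hrow : ∀ u : Fin 13, u.val < 11 → zS w {u} + (mm B 12 u + mm B 11 u) ≤ MM B u := by
    intro u hu
    rw [MM_split11 hu, Nat.add_comm]
    refine Nat.add_le_add_left ?_ _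
    unfold zS
    rw [if_pos (card_singleton u), sdiff_singleton_eq_erase]
    refine sum_le_sum fun v hv => ?_
    rw [mem_erase, mem_R11] at hv
    have hvu : ({v, u} : Finset (Fin 13)) ⊆ R11 := by
      intro a ha
      rw [mem_insert, mem_singleton] at ha
      rw [mem_R11]
      rcases ha with rfl | rfl
      · exact hv.2
      · exact hu
    have h1 := hL {v, u} hvu (card_pair hv.1)
    rw [Lam_pair hT.odd hv.1, mm_comm B v u] at h1
    unfold tS
    rw [if_pos (card_pair hv.1)]
    omega
  have htot : (bw fun s => (if s.card = 1 ∧ (128 ≤ zS w s + aA B 121 s ∨
      1 ≤ ∑ u ∈ s, (mm B 12 u + mm B 11 u)) then 2 ^ 0 else 0) +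
      (if s.card = 1 ∧ 128 ≤ zS w s + aA B 119 s then 2 ^ 3 else 0)) % 255 ≤ 7 := by
    refine le_trans (bw_mod255 fun s hs => ?_) (le_trans ?_ hT.seven)
    · rw [if_neg fun h => hs h.1, if_neg fun h => hs h.1]
    · rw [card_filter]
      refine sum_le_sum fun u hu => ?_
      have hu' := mem_R11.1 hu
      have h1 := hrow u hu'
      have h2 := hT.le8 u hu'
      have h3 := hT.nb u hu'
      have h4 := MM_even hT.odd u
      have h5 : aA B 121 {u} = mm B 12 u + mm B 11 u + 121 := by
        unfold aA
        rw [if_pos (card_singleton u), sum_singleton]
      have h6 : aA B 119 {u} = mm B 12 u + mm B 11 u + 119 := by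
        unfold aA
        rw [if_pos (card_singleton u), sum_singleton]
      obtain ⟨k, hk⟩ := h4
      rw [h5, h6, sum_singleton, if_neg (fun h : _ ∧ 128 ≤ _ => by have := h.2; omega)]
      by_cases h7 : ({u} : Finset (Fin 13)).card = 1 ∧
          (128 ≤ zS w {u} + (mm B 12 u + mm B 11 u + 121) ∨ 1 ≤ mm B 12 u + mm B 11 u)
      · have h9 : 8 ≤ MM B u := by
          rcases h7.2 with h8 | h8
          · omega
          · exact h3 h8
        rw [if_pos h7, if_pos h9]
        norm_num
      · rw [if_neg h7]
        exact Nat.zero_le _
  by_contra hc
  rw [Bool.not_eq_false, Nat.ble_eq] at hc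
  omega

end Pool.Agent.Helper64.TY.K7
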