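import Pool.Agent.Helper64.TY.TRoot

/-!
TH-Y' (stage Z): the kill test of the pair frame when all outside points have `MM <= 8`: dead iff
some row is at least 9 (row bounds as in `k7`, 11 operations).
-/

set_option autoImplicit false
set_option exponentiation.threshold 20000

namespace Pool.Agent.Helper64.TY.K7

open Finset
open Pool.Agent.Helper89.CV (OddCover ofMask)
open Pool.Agent.Helper97.CV Pool.Agent.Helper79.CV Pool.Agent.Helper33.CV
open Pool.Agent.Helper33.TY
open Pool.Agent.Helper63.SIMD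
open Pool.Agent.Helper25.TY (R11 mem_R11)

/-- what the row-cap test uses -/
structure ZH (B : Finset (Finset (Fin 13))) : Prop where
  odd : OddCover B
  le157 : B.card ≤ 157
  le8 : ∀ u : Fin 13, u.val < 11 → MM B u ≤ 8

theorem ZH.lam {B : Finset (Finset (Fin 13))} (h : ZH B) {s : Finset (Fin 13)} (hs : s ⊆ R11)
    (h2 : s.card = 2) : Lam B s ≤ 10 := by
  obtain ⟨z, w, hzw, rfl⟩ := card_eq_two.1 h2
  have h3 := three_mm_le h.odd hzw
  have h4 := h.le8 z (mem_R11.1 (hs (mem_insert_self _ _)))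
  have h5 := Lam_pair h.odd hzw
  omega

/-- not zero -/
def nz (x : ℕ) : Bool := @Bool.rec (fun _ => Bool) true false (Nat.beq x 0)

/-- true = dead -/
def k8 (A10 f : ℕ) : Bool :=
  nz (Nat.land (Nat.add (Nat.shiftRight (Nat.mul
    (Nat.land (Nat.shiftRight (Nat.mul (Nat.add f m1_2) 11) 5) m7_2) kC1) 8192) A10) m128_1)

theorem aA_le {B : Finset (Finset (Fin 13))} (hB : OddCover B) (h157 : B.card ≤ 157) {c : ℕ}
    (hc : c ≤ 130) {s : Finset (Fin 13)} (hs : s ⊆ R11) : aA B c s ≤ 190 := by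
  unfold aA
  split_ifs with h
  · obtain ⟨u, rfl⟩ := card_eq_one.1 h
    rw [sum_singleton]
    have := hrow_le hB h157 (mem_R11.1 (singleton_subset_iff.1 hs))
    omega
  · omega

theorem row_real {B : Finset (Finset (Fin 13))} (hB : OddCover B) {w : Finset (Fin 13) → ℕ}
    (hL : ∀ s ⊆ R11, s.card = 2 → w s ≤ Lam B s) {u : Fin 13} (hu : u.val < 11) :
    zS w {u} + (mm B 12 u + mm B 11 u) ≤ MM B u := by
  rw [MM_split11 hu, Nat.add_comm]
  refine Nat.add_le_add_left ?_ _
  unfold zS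
  rw [if_pos (card_singleton u), sdiff_singleton_eq_erase]
  refine sum_le_sum fun v hv => ?_
  rw [mem_erase, mem_R11] at hv
  have hvu : ({v, u} : Finset (Fin 13)) ⊆ R11 := by
    intro a ha
    rw [mem_insert, mem_singleton] at ha
    rw [mem_R11]
    rcases ha with rfl | rfl
    · exact hv.2
    · exact hu
  have h1 := hL {v, u} hvu (card_pair hv.1)
  rw [Lam_pair hB hv.1, mm_comm B v u] at h1
  unfold tS
  rw [if_pos (card_pair hv.1)]
  omega

/-- THE ROW-CAP TEST IS SOUND -/
theorem k8_false {B : Finset (Finset (Fin 13))} (hT : ZH B) {w : Finset (Fin 13) → ℕ}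
    (hw : ∀ s : Finset (Fin 13), s.card ≠ 2 → w s = 0)
    (hL : ∀ s ⊆ R11, s.card = 2 → w s ≤ Lam B s) :
    k8 (bw (aA B 119)) (bw w) = false := by
  have hw10 : ∀ s ⊆ R11, w s ≤ 10 := by
    intro s hs
    by_cases h2 : s.card = 2
    · exact (hL s hs h2).trans (hT.lam hs h2)
    · rw [hw s h2]
      exact Nat.zero_le _
  obtain ⟨y, hY, hy33, hyz⟩ := y_eq hw10
  have hprog : k8 (bw (aA B 119)) (bw w) =
      nz ((pk 8 2048 y + bw (aA B 119)) &&& m128_1) := by
    rw [← hY, ← t_eq hw10]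
    unfold k8
    exact congrArg nz rfl
  have h3 : (bw fun s => if s.card = 1 ∧ 128 ≤ zS w s + aA B 119 s then 128 else 0) = 0 := by
    have h4 : (bw fun s => if s.card = 1 ∧ 128 ≤ zS w s + aA B 119 s then 128 else 0) =
        bw fun _ => 0 := by
      refine bw_congr fun s hs => ?_
      rw [if_neg]
      rintro ⟨h4, h5⟩
      obtain ⟨u, rfl⟩ := card_eq_one.1 h4
      have hu := mem_R11.1 (singleton_subset_iff.1 hs)
      have h6 := row_real hT.odd hL hu
      have h7 := hT.le8 u hu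
      unfold aA at h5
      rw [if_pos (card_singleton u), sum_singleton] at h5
      omega
    rw [h4]
    unfold bw pk
    exact sum_eq_zero fun _ _ => Nat.zero_mul _
  rw [hprog, thr_bw hy33 hyz fun s hs => aA_le hT.odd hT.le157 (by norm_num) hs, h3]
  rfl

theorem k8_ok {B : Finset (Finset (Fin 13))} (hT : ZH B) {p : ℕ → ℕ}
    (hp : ∀ r ∈ Kill11.P2, p r ≤ Lam B (ofMask r)) (hp0 : ∀ r, r ∉ Kill11.P2 → p r = 0) :
    k8 (bw (aA B 119)) (pk 8 2048 p) = false := by
  have h1 : pk 8 2048 p = bw fun s => p (mk s) := by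
    unfold bw
    refine pk_congr fun m hm => ?_
    show p m = p (mk (ofMask m))
    rw [mk_ofMask (lt_trans hm (by norm_num))]
  rw [h1]
  refine k8_false hT (fun s hs => hp0 _ fun h => hs ?_) (fun s hs h2 => ?_)
  · rw [mem_P2_iff, ofMask_mk] at h
    exact h.2
  · have h3 : mk s ∈ Kill11.P2 := by
      rw [mem_P2_iff, ofMask_mk]
      exact ⟨mk_lt_R11.2 hs, h2⟩
    have h4 := hp _ h3
    rw [ofMask_mk] at h4
    exact h4

end Pool.Agent.Helper64.TY.K7
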