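import Pool.Agent.Helper64.TY.KilX

/-!
TH-Y' (stages E, B1a): the kill test `kx` with a fourth threshold: the pair bounds are
`min 4 ((f + 1) / 3)` instead of `min 3 ((f + 1) / 3)`.
-/

set_option autoImplicit false
set_option exponentiation.threshold 20000

namespace Pool.Agent.Helper64.TY.KilX

open Finset Pool.Agent.Helper63.SIMD Pool.Agent.Helper97.CV.KillW Pool.Agent.Helper97.CV.Cube
open Pool.Agent.Helper89.CV Pool.Agent.Helper97.CV
open Pool.Agent.Helper97.CV.Kill10
open Pool.Agent.Helper55.TY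

/-- 117 on the pairs -/
def cT11 : ℕ := 0x75000000000000000000000000000000000000000000000000000000000000000000000000000000000000000000000000000000000000000000000000000000000000000000000000000000000000000000000000000000000000000000000000000000000000000000000000000000000000000000000000000000000000007500000000000000000000000000000000000000000000000000000000000000000000000000000000000000000000000000000000000000000000000000000075000000000000000000000000000000000000000000000000000000000000007500000000000000000000000000000075000000000000007500000075007575000000000000000000000000000000000000000000000000000000000000000000000000000000000000000000000000000000000000000000000000000000000000000000000000000000000000000000000000000000000000000000000000000000000000000000000000000000000000000000000000000000000000000075000000000000000000000000000000000000000000000000000000000000000000000000000000000000000000000000000000000000000000000000000000750000000000000000000000000000000000000000000000000000000000000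075000000000000000000000000000000750000000000000075000000750075750000000000000000000000000000000000000000000000000000000000000000000000000000000000000000000000000000000000000000000000000000000075000000000000000000000000000000000000000000000000000000000000007500000000000000000000000000000075000000000000007500000075007575000000000000000000000000000000000000000000000000000000000000000075000000000000000000000000000000750000000000000075000000750075750000000000000000000000000000000075000000000000007500000075007575000000000000000075000000750075750000000075007575000075750075000000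

theorem cT11_eq : cT11 = kT 1 11 := by rw [kT_eq]; decide +kernel

/-- pair bounds, capped at 4 -/
def tF4 (g : ℕ → ℕ) (r : ℕ) : ℕ := tF g r + (if r ∈ P2 then (if 11 ≤ g r then 1 else 0) else 0)

theorem tF4_le (g : ℕ → ℕ) (r : ℕ) : tF4 g r ≤ 4 := by
  unfold tF4
  have := tF_le g r
  split_ifs <;> omega

theorem tF4_third (g : ℕ → ℕ) (r : ℕ) : tF4 g r ≤ (g r + 1) / 3 := by
  unfold tF4 tF
  split_ifs <;> omega

/-- row bounds from the pair word, four thresholds -/
def rowsF4 (k2 k5 k8 k11 O2 C1 M1 Ev A f : ℕ) : ℕ :=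
  ((((((((f + k2) >>> 7) &&& O2) + (((f + k5) >>> 7) &&& O2) + (((f + k8) >>> 7) &&& O2)) +
    (((f + k11) >>> 7) &&& O2)) * C1) >>> (8 * 512) &&& M1) + A) &&& Ev

theorem xF4_le127 {t a : ℕ → ℕ} (ht : ∀ r, t r ≤ 4) (ha : ∀ r, a r ≤ 87) (r : ℕ) :
    xF t a r ≤ 127 := by
  unfold xF
  have h1 : ∑ q ∈ P1, KillW.ext 1024 t (r + q) ≤ P1.card * 4 := sum_ext_le fun s => ht s
  rw [P1_card] at h1
  have h2 := ha r
  split_ifs
  · omega
  · omega

theorem rowsF4_eq {g a : ℕ → ℕ} (hg : ∀ r, g r ≤ 127) (ha : ∀ r, a r ≤ 87) :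
    rowsF4 (kT 1 2) (kT 1 5) (kT 1 8) (kT 1 11) (kO2 1) kC1 (kM1 1) (kEv 1) (pk 8 1024 a)
      (pk 8 1024 g) = pk 8 1024 (xF (tF4 g) a) := by
  have hgc : pk 8 1024 g = cube 1 (fun _ => g) := (cube_one fun _ => g).symm
  have hac : pk 8 1024 a = cube 1 (fun _ => a) := (cube_one fun _ => a).symm
  have hxc : pk 8 1024 (xF (tF4 g) a) = cube 1 (fun _ => xF (tF4 g) a) :=
    (cube_one fun _ => xF (tF4 g) a).symm
  rw [hgc, hac, hxc]
  have ht : ∀ k, k = 2 ∨ k = 5 ∨ k = 8 ∨ k = 11 →
      ((cube 1 (fun _ => g) + kT 1 k) >>> 7) &&& kO2 1 =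
      cube 1 (fun _ r => if r ∈ P2 then (if k ≤ g r then 1 else 0) else 0) := by
    intro k hk
    unfold kT kO2
    rw [cube_const, cube_const, cube_add, cube_shr7]
    · refine cube_congr fun i hi r _ => ?_
      unfold onS
      by_cases hr : r ∈ P2
      · simp only [if_pos hr]
        exact thr (hg r) (by omega) (by omega)
      · simp only [if_neg hr, Nat.and_zero]
    · intro i hi r _
      have h1 := hg r
      show g r + onS P2 (128 - k) r < 2 ^ 8
      unfold onS
      split_ifs <;> omega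
    · intro r _
      unfold onS
      split_ifs <;> omega
  have hX : ∀ t : ℕ → ℕ → ℕ, (∀ i r, t i r ≤ 4) →
      ((((cube 1 t * kC1) >>> (8 * 512)) &&& kM1 1) + cube 1 (fun _ => a)) &&& kEv 1 =
      cube 1 (fun i => xF (t i) a) := by
    intro t ht3
    unfold kC1 kM1 kEv
    rw [cube_const (onS P1 254)]
    have hM : onS P1 255 = fun r => if r ∈ P1 then 255 else 0 := rfl
    rw [hM, cube_corr (c := 4) (by norm_num) (fun q hq => P1_le hq) (fun i _ r _ => ht3 i r)
      (by rw [P1_card]; norm_num) (fun q hq => P1_lt hq), cube_add]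
    have hs : ∀ i < 1, ∀ r, (if r ∈ P1 then ∑ q ∈ P1, KillW.ext 1024 (t i) (r + q) else 0) + a r
        ≤ 127 := by
      intro i hi r
      have h1 : ∑ q ∈ P1, KillW.ext 1024 (t i) (r + q) ≤ P1.card * 4 := sum_ext_le fun s => ht3 i s
      rw [P1_card] at h1
      have h2 := ha r
      split_ifs <;> omega
    rw [cube_land]
    · refine cube_congr fun i hi r _ => ?_
      unfold xF onS
      by_cases hr : r ∈ P1
      · have h3 := hs i hi r
        simp only [if_pos hr] at h3 ⊢
        exact land254 (by omega)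
      · simp only [if_neg hr, Nat.and_zero]
    · intro i hi r _
      have := hs i hi r
      show _ < 2 ^ 8
      omega
    · intro i _ r _
      show onS P1 254 r < 2 ^ 8
      unfold onS
      split_ifs <;> norm_num
  unfold rowsF4
  rw [ht 2 (by omega), ht 5 (by omega), ht 8 (by omega), ht 11 (by omega), cube_add, cube_add,
    cube_add]
  have e1 : cube 1 (fun i r =>
      (((if r ∈ P2 then (if 2 ≤ g r then 1 else 0) else 0) +
      (if r ∈ P2 then (if 5 ≤ g r then 1 else 0) else 0)) +
      (if r ∈ P2 then (if 8 ≤ g r then 1 else 0) else 0)) +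
      (if r ∈ P2 then (if 11 ≤ g r then 1 else 0) else 0)) =
      cube 1 (fun _ => tF4 g) := by
    refine cube_congr fun i _ r _ => ?_
    unfold tF4 tF
    by_cases hr : r ∈ P2
    · simp only [if_pos hr]
    · simp only [if_neg hr]
  rw [e1, hX _ (fun i r => tF4_le _ r)]

/-- THE TEST with a refined exception and pair cap 4 -/
def kilX4 (k2 k5 k8 k11 O2 C1 M1 Ev H T Tb D N1 HN A Ls Lw f : ℕ) : Bool :=
  (fun X => (fun t => Nat.ble T t && (Nat.ble Tb t ||
      Nat.beq ((X + (D + t) * N1) &&& HN) HN)) (maxF H Ls Lw X % 255))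
    (rowsF4 k2 k5 k8 k11 O2 C1 M1 Ev A f)

theorem row4_le {B : Finset (Finset (Fin 13))} (hB : OddCover B) {g a l : ℕ → ℕ} {N : Finset ℕ}
    {e l' : ℕ} (h : ValidX B g a l N e l') (z : Fin 13) (hz : z.val < 10) :
    xF (tF4 g) a (2 ^ z.val) ≤ MM B z := by
  have h1 : ∑ q ∈ P1, KillW.ext 1024 (tF4 g) (2 ^ z.val + q) ≤
      ∑ w ∈ range 10, (if h : w < 10 then
      (if w = z.val then 0 else mm B z ⟨w, by omega⟩) else 0) := by
    rw [sum_P1]
    refine sum_le_sum fun w hw => ?_
    have hw := mem_range.1 hw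
    rw [dif_pos hw]
    by_cases hwz : w = z.val
    · rw [if_pos hwz, hwz, ← two_mul, ← pow_succ']
      by_cases h9 : z.val < 9
      · unfold KillW.ext tF4 tF
        rw [if_neg (two_pow_notMem h9), if_neg (two_pow_notMem h9)]
        split_ifs <;> exact le_rfl
      · have h10 : z.val = 9 := by omega
        unfold KillW.ext
        rw [h10, if_neg (by norm_num)]
    · rw [if_neg hwz]
      unfold KillW.ext
      split_ifs
      · exact (tF4_third _ _).trans (h.pair z ⟨w, by omega⟩ hz hw
          (fun h3 => hwz (congrArg Fin.val h3).symm))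
      · exact Nat.zero_le _
  have h2 := MM_split B z hz
  have h3 := h.off z hz
  obtain ⟨t, ht⟩ := MM_even hB z
  unfold xF
  split_ifs
  · omega
  · exact Nat.zero_le _

/-- SOUNDNESS of the test -/
theorem kilX4_sound {B : Finset (Finset (Fin 13))} (hB : OddCover B) (h157 : B.card ≤ 157)
    {g a l : ℕ → ℕ} {N : Finset ℕ} {e l' : ℕ} (hN : N ⊆ P1) (hg : ∀ r, g r ≤ 127)
    (ha : ∀ r, a r ≤ 87) (hl : ∀ r, l r ≤ 127) (hl0 : ∀ r, r ∉ P1 → l r = 0)
    (h : ValidX B g a l N e l') {T Tb D : ℕ}
    (hT : 88 < T + (MM B 10 + MM B 11 + MM B 12)) (h1 : T + e ≤ Tb + l')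
    (h2 : D + T + e ≤ 128) (h3 : D + Tb ≤ 129) :
    kilX4 (kT 1 2) (kT 1 5) (kT 1 8) (kT 1 11) (kO2 1) kC1 (kM1 1) (kEv 1) (kH 1) T Tb D
      (pk 8 1024 (onS N 1)) (pk 8 1024 (onS N 128)) (pk 8 1024 a)
      (pk 8 1024 (fun r => onS P1 128 r - l r)) (pk 8 1024 l) (pk 8 1024 g) = false := by
  unfold kilX4
  simp only []
  rw [rowsF4_eq hg ha]
  set x := xF (tF4 g) a with hxd
  have hx127 : ∀ r, x r ≤ 127 := fun r => xF4_le127 (fun r => tF4_le g r) ha r
  have hx0 : ∀ r, r ∉ P1 → x r = 0 := fun r hr => xF_zero hr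
  rw [maxF_eq hx127 hx0 hl]
  set t := pk 8 1024 (fun r => max (l r) (x r)) % 255 with htd
  -- the total
  have ht : t ≤ ∑ z ∈ range 10, max (l (2 ^ z)) (x (2 ^ z)) := by
    have h4 := pk_mod255 1024 (fun r => max (l r) (x r))
    have h5 : ∑ r ∈ range 1024, max (l r) (x r) = ∑ z ∈ range 10, max (l (2 ^ z)) (x (2 ^ z)) := by
      rw [← sum_P1 fun r => max (l r) (x r)]
      refine (sum_subset (fun r hr => mem_range.2 (P1_lt hr)) fun r _ hr => ?_).symm
      rw [hl0 r hr, hx0 r hr, max_self]
    rw [h5] at h4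
    exact h4
  have hxM : ∀ z : Fin 13, z.val < 10 → x (2 ^ z.val) ≤ MM B z := fun z hz => row4_le hB h z hz
  have hsum := sum_MM_outside hB h157
  obtain ⟨s, hs1, hs2⟩ := h.low
  by_contra hc
  rw [Bool.not_eq_false, Bool.and_eq_true, Bool.or_eq_true, Nat.ble_eq, Nat.ble_eq] at hc
  obtain ⟨hc1, hc2⟩ := hc
  -- without exception
  have hall : (∀ z : Fin 13, z.val < 10 → l (2 ^ z.val) ≤ MM B z) → False := by
    intro hlow
    have h4 : ∑ z ∈ range 10, max (l (2 ^ z)) (x (2 ^ z)) ≤
        ∑ z ∈ range 10, (if h : z < 10 then MM B ⟨z, by omega⟩ else 0) := by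
      refine sum_le_sum fun z hz => ?_
      have hz := mem_range.1 hz
      rw [dif_pos hz]
      exact max_le (hlow ⟨z, by omega⟩ hz) (hxM ⟨z, by omega⟩ hz)
    omega
  by_cases hs10 : s.val < 10
  swap
  · refine hall fun z hz => hs1 z hz ?_
    rintro rfl
    exact hs10 hz
  rcases hs2 hs10 with h4 | ⟨hsN, hle, hls⟩
  · refine hall fun z hz => ?_
    by_cases hzs : z = s
    · rw [hzs]
      exact h4
    · exact hs1 z hz hzs
  -- the exception
  have hsum2 : ∑ z ∈ range 10, max (l (2 ^ z)) (x (2 ^ z)) + max l' (x (2 ^ s.val)) ≤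
      ∑ z ∈ range 10, (if h : z < 10 then MM B ⟨z, by omega⟩ else 0) +
        max (l (2 ^ s.val)) (x (2 ^ s.val)) := by
    have hmem : s.val ∈ range 10 := mem_range.2 hs10
    rw [← add_sum_erase _ _ hmem, ← add_sum_erase (range 10)
      (fun z => if h : z < 10 then MM B ⟨z, by omega⟩ else 0) hmem]
    have h5 : ∑ z ∈ (range 10).erase s.val, max (l (2 ^ z)) (x (2 ^ z)) ≤
        ∑ z ∈ (range 10).erase s.val, (if h : z < 10 then MM B ⟨z, by omega⟩ else 0) := by
      refine sum_le_sum fun z hz => ?_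
      rw [mem_erase, mem_range] at hz
      rw [dif_pos hz.2]
      refine max_le (hs1 ⟨z, by omega⟩ hz.2 ?_) (hxM ⟨z, by omega⟩ hz.2)
      intro h6
      exact hz.1 (congrArg Fin.val h6)
    have h6 : max l' (x (2 ^ s.val)) ≤ (if h : s.val < 10 then MM B ⟨s.val, by omega⟩ else 0) := by
      rw [dif_pos hs10]
      exact max_le hls (hxM s hs10)
    omega
  have hm1 : l' ≤ max l' (x (2 ^ s.val)) := le_max_left _ _
  have hm2 : x (2 ^ s.val) ≤ max l' (x (2 ^ s.val)) := le_max_right _ _
  rcases Nat.lt_or_ge (x (2 ^ s.val)) (l (2 ^ s.val)) with hxl | hxl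
  · rw [max_eq_left hxl.le] at hsum2
    have ht2 : t < Tb := by omega
    rcases hc2 with hc2 | hc2
    · omega
    · replace hc2 := Nat.eq_of_beq_eq_true hc2
      have h5 : (pk 8 1024 x + (D + t) * pk 8 1024 (onS N 1)) &&& pk 8 1024 (onS N 128) =
          pk 8 1024 (fun r => (x r + (D + t) * onS N 1 r) &&& onS N 128 r) := by
        rw [mul_pk, pk_add, pk_land]
        · intro r _
          have h6 := hx127 r
          show x r + (D + t) * onS N 1 r < 2 ^ 8
          unfold onS
          split_ifs <;> omega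
        · intro r _
          show onS N 128 r < 2 ^ 8
          unfold onS
          split_ifs <;> norm_num
      rw [h5] at hc2
      have hsP : 2 ^ s.val ∈ P1 := hN hsN
      have hslt : 2 ^ s.val < 1024 := P1_lt hsP
      have h7 := congrArg (fun w => fld 8 w (2 ^ s.val)) hc2
      rw [fld_pk _ hslt, fld_pk _ hslt] at h7
      · unfold onS at h7
        rw [if_pos hsN, if_pos hsN, mul_one, land128 (by have := hx127 (2 ^ s.val); omega)] at h7
        split_ifs at h7 with h8
        · omega
      · intro r _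
        unfold onS
        split_ifs <;> norm_num
      · intro r _
        refine lt_of_le_of_lt Nat.and_le_right ?_
        unfold onS
        split_ifs <;> norm_num
  · rw [max_eq_right hxl] at hsum2
    omega

/-! ### the raw form -/

/-- raw row bounds -/
def rowsX4 (A f : ℕ) : ℕ :=
  Nat.land (Nat.add (Nat.land (Nat.shiftRight (Nat.mul (Nat.add (Nat.add (Nat.add
    (Nat.land (Nat.shiftRight (Nat.add f M10.cT2) 7) M10.cO2)
    (Nat.land (Nat.shiftRight (Nat.add f M10.cT5) 7) M10.cO2))
    (Nat.land (Nat.shiftRight (Nat.add f M10.cT8) 7) M10.cO2))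
    (Nat.land (Nat.shiftRight (Nat.add f cT11) 7) M10.cO2)) M10.cC1) 4096) M10.cM1) A) M10.cEv

/-- THE TEST, raw form: plugs into `M10.run` as `K = kx4 T Tb D N1 HN A Ls Lw` -/
def kx4 (T Tb D N1 HN A Ls Lw f : ℕ) : Bool :=
  (fun X => (fun t => @Bool.rec (fun _ => Bool) false
      (@Bool.rec (fun _ => Bool)
        (Nat.beq (Nat.land (Nat.add X (Nat.mul (Nat.add D t) N1)) HN) HN) true (Nat.ble Tb t))
      (Nat.ble T t)) (Nat.mod (maxX Ls Lw X) 255)) (rowsX4 A f)

theorem rowsX4_eq (A f : ℕ) : rowsX4 A f =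
    rowsF4 (kT 1 2) (kT 1 5) (kT 1 8) (kT 1 11) (kO2 1) kC1 (kM1 1) (kEv 1) A f := by
  rw [← cT2_eq, ← cT5_eq, ← cT8_eq, ← cT11_eq, ← cO2_eq, ← cC1_eq, ← cM1_eq, ← cEv_eq]
  rfl

theorem kx4_eq (T Tb D N1 HN A Ls Lw f : ℕ) : kx4 T Tb D N1 HN A Ls Lw f =
    kilX4 (kT 1 2) (kT 1 5) (kT 1 8) (kT 1 11) (kO2 1) kC1 (kM1 1) (kEv 1) (kH 1) T Tb D N1 HN A
      Ls Lw f := by
  unfold kx4 kilX4
  rw [rowsX4_eq]
  generalize rowsF4 (kT 1 2) (kT 1 5) (kT 1 8) (kT 1 11) (kO2 1) kC1 (kM1 1) (kEv 1) A f = X
  simp only [maxX_eq]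
  generalize maxF (kH 1) Ls Lw X = Y
  exact bool_test T Tb D N1 HN X (Y % 255)

/-- SOUNDNESS of the raw test -/
theorem kx4_sound {B : Finset (Finset (Fin 13))} (hB : OddCover B) (h157 : B.card ≤ 157)
    {g a l : ℕ → ℕ} {N : Finset ℕ} {e l' : ℕ} (hN : N ⊆ P1) (hg : ∀ r, g r ≤ 127)
    (ha : ∀ r, a r ≤ 87) (hl : ∀ r, l r ≤ 127) (hl0 : ∀ r, r ∉ P1 → l r = 0)
    (h : ValidX B g a l N e l') {T Tb D : ℕ}
    (hT : 88 < T + (MM B 10 + MM B 11 + MM B 12)) (h1 : T + e ≤ Tb + l')
    (h2 : D + T + e ≤ 128) (h3 : D + Tb ≤ 129) :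
    kx4 T Tb D (pk 8 1024 (onS N 1)) (pk 8 1024 (onS N 128)) (pk 8 1024 a)
      (pk 8 1024 (fun r => onS P1 128 r - l r)) (pk 8 1024 l) (pk 8 1024 g) = false := by
  rw [kx4_eq]
  exact kilX4_sound hB h157 hN hg ha hl hl0 h hT h1 h2 h3

end Pool.Agent.Helper64.TY.KilX
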