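import Pool.Agent.Helper64.TY.Cap11

/-!
TH-Y' (stage T): kill test for covers in which all outside points have `MM` in `{6, 8}` and exactly
seven have `MM = 8`.

`x8` marks in the result of `resRun` the rows `>= 8` with 1 and the rows `>= 9` with 8 more; the
configuration is dead if the digit sum is at least 8.
-/

set_option autoImplicit false
set_option exponentiation.threshold 40000

namespace Pool.Agent.Helper64.TY.Cap11

open Finset Pool.Agent.Helper63.SIMD Pool.Agent.Helper97.CV.KillW Pool.Agent.Helper97.CV.Cube11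
open Pool.Agent.Helper89.CV Pool.Agent.Helper97.CV
open Pool.Agent.Helper97.CV.Kill11

/-- all outside points have `MM <= 8`, at most seven have `MM = 8` -/
structure Seven (B : Finset (Finset (Fin 13))) : Prop where
  le : ∀ z : Fin 13, z.val < 11 → MM B z ≤ 8
  card : ((range 11).filter fun z => ∃ h : z < 11, 8 ≤ MM B ⟨z, by omega⟩).card ≤ 7

/-- constants: fields 120 and 119 at the points -/
def kE (n : ℕ) : ℕ := pk 8 2048 (onS P1 120) * rep 32768 n
def kN (n : ℕ) : ℕ := pk 8 2048 (onS P1 119) * rep 32768 n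

/-- the marks -/
def x8 (k8 k9 H R : ℕ) : ℕ := (((R + k8) &&& H) >>> 7) + (((R + k9) &&& H) >>> 4)

/-- mark of one value -/
def mk8 (w : ℕ) : ℕ := (if 8 ≤ w then 1 else 0) + (if 9 ≤ w then 8 else 0)

theorem mk8_le (w : ℕ) : mk8 w ≤ 9 := by
  unfold mk8
  split_ifs <;> omega

/-- thresholds of a cube of values -/
theorem thr_cube {n k : ℕ} (hk : k ≤ 128) {w : ℕ → ℕ → ℕ} (hw : ∀ i < n, ∀ r, w i r ≤ 127) :
    (cube n w + pk 8 2048 (onS P1 (128 - k)) * rep 32768 n) &&& kH n =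
      cube n (fun i r => if r ∈ P1 ∧ k ≤ w i r then 128 else 0) := by
  unfold kH
  rw [cube_const, cube_const, cube_add, cube_land]
  · refine cube_congr fun i hi r _ => ?_
    have h1 := hw i hi r
    unfold onS
    by_cases hr : r ∈ P1
    · simp only [if_pos hr]
      by_cases h3 : k ≤ w i r
      · rw [land128 (by omega), if_pos (by omega), if_pos ⟨hr, h3⟩]
      · rw [land128 (by omega), if_neg (by omega), if_neg (fun h4 => h3 h4.2)]
    · simp only [if_neg hr, Nat.and_zero]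
      rw [if_neg (fun h4 => hr h4.1)]
  · intro i hi r _
    have h1 := hw i hi r
    show w i r + onS P1 (128 - k) r < 2 ^ 8
    unfold onS
    split_ifs <;> omega
  · intro i _ r _
    show onS P1 128 r < 2 ^ 8
    unfold onS
    split_ifs <;> norm_num

theorem cube_shr_mark {n k a b : ℕ} (hab : a + b = 7) {w : ℕ → ℕ → ℕ} :
    (cube n (fun i r => if r ∈ P1 ∧ k ≤ w i r then 128 else 0)) >>> a =
      cube n (fun i r => if r ∈ P1 ∧ k ≤ w i r then 2 ^ b else 0) := by
  have e2 : cube n (fun i r => if r ∈ P1 ∧ k ≤ w i r then 128 else 0) =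
      2 ^ a * cube n (fun i r => if r ∈ P1 ∧ k ≤ w i r then 2 ^ b else 0) := by
    unfold cube
    rw [mul_pk]
    refine pk_congr fun i _ => ?_
    rw [mul_pk]
    refine pk_congr fun r _ => ?_
    show (if r ∈ P1 ∧ k ≤ w i r then 128 else 0) = 2 ^ a * (if r ∈ P1 ∧ k ≤ w i r then 2 ^ b else 0)
    split_ifs
    · rw [← pow_add, hab]; norm_num
    · rw [mul_zero]
  rw [e2, Nat.shiftRight_eq_div_pow, Nat.mul_div_cancel_left _ (Nat.two_pow_pos a)]

theorem x8_eq {n : ℕ} {w : ℕ → ℕ → ℕ} (hw : ∀ i < n, ∀ r, w i r ≤ 127) :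
    x8 (kE n) (kN n) (kH n) (cube n w) = cube n (fun i r => if r ∈ P1 then mk8 (w i r) else 0) := by
  unfold x8 kE kN
  have h1 := thr_cube (n := n) (k := 8) (by norm_num) hw
  have h2 := thr_cube (n := n) (k := 9) (by norm_num) hw
  rw [show 128 - 8 = 120 by norm_num] at h1
  rw [show 128 - 9 = 119 by norm_num] at h2
  rw [h1, h2, cube_shr_mark (a := 7) (b := 0) (by norm_num),
    cube_shr_mark (a := 4) (b := 3) (by norm_num), cube_add]
  refine cube_congr fun i _ r _ => ?_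
  unfold mk8
  by_cases hr : r ∈ P1
  · simp only [hr, true_and, if_true]
    norm_num
  · simp only [hr, false_and, if_false]

/-- the total of the marks of a valid lane is at most seven -/
theorem seven_le {B : Finset (Finset (Fin 13))} (hB : OddCover B) (h7 : Seven B)
    {u v p a l : ℕ → ℕ} (h : Sound B u v p a l) :
    ∑ z ∈ range 11, mk8 (rF u v p a l (2 ^ z)) ≤ 7 := by
  refine le_trans ?_ h7.card
  rw [card_filter]
  refine sum_le_sum fun z hz => ?_
  rw [mem_range] at hz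
  have h1 := rF_le hB h ⟨z, by omega⟩ hz
  have h2 := h7.le ⟨z, by omega⟩ hz
  unfold mk8
  rw [if_neg (show ¬ 9 ≤ rF u v p a l (2 ^ z) by
    intro h3
    have h4 : rF u v p a l (2 ^ z) ≤ 8 := h1.trans h2
    omega), add_zero]
  by_cases h5 : 8 ≤ rF u v p a l (2 ^ z)
  · rw [if_pos h5, if_pos ⟨hz, h5.trans h1⟩]
  · rw [if_neg h5]
    exact Nat.zero_le _

/-! ### scalar test -/

/-- SCALAR TEST: the digit sum of the marks is at least 8 -/
def kill7 (C2 M2 k2 k5 k8 O2 C1 M1 H Ev E8 N9 U V P A Ls Lw : ℕ) : Bool :=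
  Nat.ble 8 (x8 E8 N9 H (resRun C2 M2 k2 k5 k8 O2 C1 M1 H Ev U V P A Ls Lw) % 255)

theorem sum_mark (w : ℕ → ℕ) :
    ∑ r ∈ range 2048, (if r ∈ P1 then w r else 0) = ∑ z ∈ range 11, w (2 ^ z) := by
  rw [← sum_P1, sum_ite_mem]
  refine sum_congr ?_ fun _ _ => rfl
  ext r
  rw [mem_inter, mem_range]
  exact ⟨fun h => h.2, fun h => ⟨P1_lt h, h⟩⟩

theorem kill7_sound {B : Finset (Finset (Fin 13))} (hB : OddCover B) (h7 : Seven B)
    {u v p a l : ℕ → ℕ} (hok : Ok u v p a l) (hs : Sound B u v p a l) :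
    kill7 kC2 (kM2 1) (kT 1 2) (kT 1 5) (kT 1 8) (kO2 1) kC1 (kM1 1) (kH 1) (kEv 1) (kE 1) (kN 1)
      (pk 8 2048 u) (pk 8 2048 v) (pk 8 2048 p) (pk 8 2048 a)
      (pk 8 2048 (fun r => onS P1 128 r - l r)) (pk 8 2048 l) = false := by
  unfold kill7
  have h2 := resRun_eq (n := 1) (u := fun _ => u) (v := fun _ => v) (p := fun _ => p)
    (a := fun _ => a) (l := fun _ => l) (fun _ _ => hok)
  rw [cube_one, cube_one, cube_one, cube_one, cube_one, cube_one] at h2
  rw [h2, x8_eq fun _ _ r => rF_le127 hok r, cube_one]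
  have h3 := pk_mod255 2048 (fun r => if r ∈ P1 then mk8 (rF u v p a l r) else 0)
  rw [sum_mark fun r => mk8 (rF u v p a l r)] at h3
  have h4 := seven_le hB h7 hs
  by_contra hc
  rw [Bool.not_eq_false, Nat.ble_eq] at hc
  omega

/-! ### lanes -/

/-- digit sums of lanes supported at the points -/
theorem lanes_total {n : ℕ} {w : ℕ → ℕ → ℕ} (hw : ∀ i < n, ∀ r, w i r ≤ 127)
    (h0 : ∀ i < n, ∀ r, r ∉ P1 → w i r = 0) :
    ((cube n w * kC1) >>> (8 * 1024)) &&& kM0 n =
      pk 32768 n (fun i => (∑ z ∈ range 11, w i (2 ^ z)) % 256) := by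
  unfold cube kM0 kC1
  rw [mul_rep (by norm_num), mul_comm, mul_pk, lane_shr_land (by norm_num)]
  · refine pk_congr fun i hi => ?_
    rw [mul_comm]
    exact lane_total (fun r => hw i hi r) (fun r hr => h0 i hi r hr)
  · intro i hi
    have h2 : pk 8 2048 (w i) < 2 ^ (8 * 2048) :=
      pk_lt fun r _ => by have := hw i hi r; omega
    have h3 : corrC 1024 P1 ≤ 2 ^ (8 * 1024) := by decide +kernel
    calc corrC 1024 P1 * pk 8 2048 (w i)
        < 2 ^ (8 * 1024) * 2 ^ (8 * 2048) :=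
          Nat.mul_lt_mul_of_le_of_lt h3 h2 (Nat.two_pow_pos _)
      _ = 2 ^ (8 * 1024 + 8 * 2048) := (pow_add 2 _ _).symm
      _ ≤ 2 ^ 32768 := Nat.pow_le_pow_right (by norm_num) (by norm_num)
  · intro i _
    calc (255 : ℕ) < 2 ^ 8 := by norm_num
      _ ≤ 2 ^ (32768 - 8 * 1024) := Nat.pow_le_pow_right (by norm_num) (by norm_num)

/-- LANE TEST: bit 0 of lane `i` is set iff the total of the marks is at least 8 (tested as
`total + 120 >= 128` at bit 7) -/
def killL (C2 M2 k2 k5 k8 O2 C1 M1 H Ev E8 N9 M0 O0 Tw U V P A Ls Lw : ℕ) : ℕ :=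
  (((((x8 E8 N9 H (resRun C2 M2 k2 k5 k8 O2 C1 M1 H Ev U V P A Ls Lw)) * C1) >>> (8 * 1024)) &&& M0)
    + Tw) >>> 7 &&& O0

/-- the word 120 in every lane -/
def kW (n : ℕ) : ℕ := 120 * rep 32768 n

/-- THE LANE PROGRAM IS CORRECT -/
theorem killL_eq {n : ℕ} {u v p a l : ℕ → ℕ → ℕ}
    (hok : ∀ i < n, Ok (u i) (v i) (p i) (a i) (l i)) :
    killL kC2 (kM2 n) (kT n 2) (kT n 5) (kT n 8) (kO2 n) kC1 (kM1 n) (kH n) (kEv n) (kE n) (kN n)
      (kM0 n) (kO0 n) (kW n)
      (cube n u) (cube n v) (cube n p) (cube n a) (cube n (fun i r => onS P1 128 r - l i r))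
      (cube n l) = pk 32768 n (fun i => if 8 ≤
        (∑ z ∈ range 11, mk8 (rF (u i) (v i) (p i) (a i) (l i) (2 ^ z))) then 1 else 0) := by
  unfold killL
  rw [resRun_eq hok, x8_eq fun i hi r => rF_le127 (hok i hi) r, lanes_total]
  · have hmem : ∀ z ∈ range 11, 2 ^ z ∈ P1 := by
      rw [P1_eq]
      exact fun z hz => mem_image_of_mem _ hz
    have hsum : ∀ i, (∑ z ∈ range 11,
        (if 2 ^ z ∈ P1 then mk8 (rF (u i) (v i) (p i) (a i) (l i) (2 ^ z)) else 0)) =
        ∑ z ∈ range 11, mk8 (rF (u i) (v i) (p i) (a i) (l i) (2 ^ z)) := fun i =>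
      sum_congr rfl fun z hz => if_pos (hmem z hz)
    have h99 : ∀ i, ∑ z ∈ range 11, mk8 (rF (u i) (v i) (p i) (a i) (l i) (2 ^ z)) ≤ 99 := by
      intro i
      calc ∑ z ∈ range 11, mk8 (rF (u i) (v i) (p i) (a i) (l i) (2 ^ z)) ≤ ∑ _z ∈ range 11, 9 :=
            sum_le_sum fun z _ => mk8_le _
        _ = 99 := by simp
    unfold kW kO0
    rw [mul_rep (by norm_num), mul_rep (by norm_num), pk_add, lane_shr_land (by norm_num)]
    · refine pk_congr fun i _ => ?_
      have h1 := h99 i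
      show (((∑ z ∈ range 11, (if 2 ^ z ∈ P1 then mk8 (rF (u i) (v i) (p i) (a i) (l i) (2 ^ z))
        else 0)) % 256 + 120) >>> 7) &&& 1 = _
      rw [hsum i, Nat.mod_eq_of_lt (by omega), Nat.shiftRight_eq_div_pow, Nat.and_one_is_mod]
      split_ifs <;> omega
    · intro i _
      have h2 := Nat.mod_lt (∑ z ∈ range 11,
        (if 2 ^ z ∈ P1 then mk8 (rF (u i) (v i) (p i) (a i) (l i) (2 ^ z)) else 0))
        (show 0 < 256 by norm_num)
      calc _ < 2 ^ 9 := by
            show (∑ z ∈ range 11, (if 2 ^ z ∈ P1 then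
              mk8 (rF (u i) (v i) (p i) (a i) (l i) (2 ^ z)) else 0)) % 256 + 120 < 2 ^ 9
            omega
        _ ≤ 2 ^ 32768 := Nat.pow_le_pow_right (by norm_num) (by norm_num)
    · intro i _
      exact Nat.one_lt_two_pow (by norm_num)
  · intro i hi r
    show (if r ∈ P1 then mk8 (rF (u i) (v i) (p i) (a i) (l i) r) else 0) ≤ 127
    have := mk8_le (rF (u i) (v i) (p i) (a i) (l i) r)
    split_ifs <;> omega
  · intro i _ r hr
    exact if_neg hr

/-- lane soundness -/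
theorem killL_sound {B : Finset (Finset (Fin 13))} (hB : OddCover B) (h7 : Seven B)
    {n : ℕ} {u v p a l : ℕ → ℕ → ℕ} (hok : ∀ i < n, Ok (u i) (v i) (p i) (a i) (l i))
    {i : ℕ} (hi : i < n) (hs : Sound B (u i) (v i) (p i) (a i) (l i)) :
    fld 32768 (killL kC2 (kM2 n) (kT n 2) (kT n 5) (kT n 8) (kO2 n) kC1 (kM1 n) (kH n) (kEv n)
      (kE n) (kN n) (kM0 n) (kO0 n) (kW n)
      (cube n u) (cube n v) (cube n p) (cube n a) (cube n (fun i r => onS P1 128 r - l i r))
      (cube n l)) i = 0 := by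
  rw [killL_eq hok, fld_pk _ hi]
  · have h1 := seven_le hB h7 hs
    exact if_neg (by omega)
  · intro j _
    split_ifs
    · exact Nat.one_lt_two_pow (by norm_num)
    · exact Nat.two_pow_pos _

end Pool.Agent.Helper64.TY.Cap11
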