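import Pool.Agent.Helper64.TY.K7

/-!
TH-Y' (stage T): the words of a pair for the machine, from the pair word `Q = bw (qf B 0)`.
-/

set_option autoImplicit false
set_option exponentiation.threshold 20000

namespace Pool.Agent.Helper64.TY.K7

open Finset
open Pool.Agent.Helper89.CV (OddCover ofMask)
open Pool.Agent.Helper97.CV Pool.Agent.Helper79.CV Pool.Agent.Helper33.CV
open Pool.Agent.Helper33.TY
open Pool.Agent.Helper63.SIMD
open Pool.Agent.Helper25.TY (R11 mem_R11 Lam_ge)

/-! ## the kill test for packed data -/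

theorem k7_ok {B : Finset (Finset (Fin 13))} (hT : TH B) {p : ℕ → ℕ}
    (hp : ∀ r ∈ Kill11.P2, p r ≤ Lam B (ofMask r)) (hp0 : ∀ r, r ∉ Kill11.P2 → p r = 0) :
    k7 (bw (aA B 121)) (bw (aA B 119)) (bw (l8 B)) (pk 8 2048 p) = false := by
  have h1 : pk 8 2048 p = bw fun s => p (mk s) := by
    unfold bw
    refine pk_congr fun m hm => ?_
    show p m = p (mk (ofMask m))
    rw [mk_ofMask (lt_trans hm (by norm_num))]
  rw [h1]
  refine k7_false hT (fun s hs => hp0 _ fun h => hs ?_) (fun s hs h2 => ?_)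
  · rw [mem_P2_iff, ofMask_mk] at h
    exact h.2
  · have h3 : mk s ∈ Kill11.P2 := by
      rw [mem_P2_iff, ofMask_mk]
      exact ⟨mk_lt_R11.2 hs, h2⟩
    have h4 := hp _ h3
    rw [ofMask_mk] at h4
    exact h4

/-! ## the root words -/

/-- offsets, threshold 7 -/
def rA8 (Q : ℕ) : ℕ := Nat.add (Nat.land Q m63_1) m121_1

/-- offsets, threshold 9 -/
def rA10 (Q : ℕ) : ℕ := Nat.add (Nat.land Q m63_1) m119_1

/-- neighbours of the pair -/
def rL8 (Q : ℕ) : ℕ := Nat.land (Nat.add (Nat.land Q m63_1) m127_1) m128_1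

/-- common quads and parities -/
def rC (Q : ℕ) : ℕ := Nat.land (Nat.land Q (Nat.shiftRight Q 1)) m1_4
def rP (Q : ℕ) : ℕ := Nat.land (Nat.xor Q (Nat.shiftRight Q 1)) m1_4

/-- pair word -/
def rF (Q : ℕ) : ℕ :=
  Nat.add (Nat.land (Nat.shiftRight (Nat.mul (rC Q) kC2) 12288) m255_2) (Nat.land Q m255_2)

variable {B : Finset (Finset (Fin 13))}

/-- the row part of the pair word -/
def sA (B : Finset (Finset (Fin 13))) (s : Finset (Fin 13)) : ℕ :=
  if s.card = 1 then ∑ u ∈ s, (mm B 12 u + mm B 11 u) else 0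

theorem word_s (hB : OddCover B) (h157 : B.card ≤ 157) :
    bw (qf B fun _ => 0) &&& m63_1 = bw (sA B) := by
  rw [m63_1_eq, bw_land_lay' (fun s hs => qf_lt256 hB h157 (fun _ => Nat.zero_le _) hs)
    (by norm_num)]
  refine bw_congr fun s hs => ?_
  unfold sA qf
  by_cases h1 : s.card = 1
  · rw [if_pos h1, if_pos h1, if_neg (by omega), if_neg (by omega),
      if_neg (by omega), if_pos h1]
    obtain ⟨u, rfl⟩ := card_eq_one.1 h1
    rw [sum_singleton]
    have := hrow_le hB h157 (mem_R11.1 (singleton_subset_iff.1 hs))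
    rw [(land_63 (by omega) (Nat.zero_le 1)).1]
  · rw [if_neg h1, if_neg h1]

theorem rA8_eq (hB : OddCover B) (h157 : B.card ≤ 157) :
    rA8 (bw (qf B fun _ => 0)) = bw (aA B 121) := by
  show (bw (qf B fun _ => 0) &&& m63_1) + m121_1 = _
  rw [word_s hB h157, m121_1_eq]
  unfold lay
  rw [bw_add]
  refine bw_congr fun s _ => ?_
  unfold sA aA
  split_ifs <;> rfl

theorem rA10_eq (hB : OddCover B) (h157 : B.card ≤ 157) :
    rA10 (bw (qf B fun _ => 0)) = bw (aA B 119) := by
  show (bw (qf B fun _ => 0) &&& m63_1) + m119_1 = _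
  rw [word_s hB h157, m119_1_eq]
  unfold lay
  rw [bw_add]
  refine bw_congr fun s _ => ?_
  unfold sA aA
  split_ifs <;> rfl

theorem rL8_eq (hB : OddCover B) (h157 : B.card ≤ 157) :
    rL8 (bw (qf B fun _ => 0)) = bw (l8 B) := by
  show ((bw (qf B fun _ => 0) &&& m63_1) + m127_1) &&& m128_1 = _
  rw [word_s hB h157, m127_1_eq]
  have h1 : bw (sA B) + lay 127 1 = bw fun s => sA B s + (if s.card = 1 then 127 else 0) := by
    unfold lay
    rw [bw_add]
  have hs : ∀ s ⊆ R11, sA B s ≤ 30 := by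
    intro s hs
    unfold sA
    split_ifs with h
    · obtain ⟨u, rfl⟩ := card_eq_one.1 h
      rw [sum_singleton]
      exact hrow_le hB h157 (mem_R11.1 (singleton_subset_iff.1 hs))
    · omega
  rw [h1, m128_1_eq, bw_land_lay' (fun s hs' => by
    have := hs s hs'
    show sA B s + (if s.card = 1 then 127 else 0) < 256
    split_ifs <;> omega) (by norm_num)]
  refine bw_congr fun s hs' => ?_
  unfold l8
  by_cases h2 : s.card = 1
  · rw [if_pos h2, if_pos h2, land_128 (by have := hs s hs'; omega)]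
    have h3 : sA B s = ∑ u ∈ s, (mm B 12 u + mm B 11 u) := by
      unfold sA
      rw [if_pos h2]
    rw [h3]
    by_cases h4 : 1 ≤ ∑ u ∈ s, (mm B 12 u + mm B 11 u)
    · rw [if_pos (by omega), if_pos ⟨h2, h4⟩]
    · rw [if_neg (by omega), if_neg fun h => h4 h.2]
  · rw [if_neg h2, if_neg fun h => h2 h.1]

/-- both quads words -/
theorem word_uv (hB : OddCover B) (h157 : B.card ≤ 157) :
    rC (bw (qf B fun _ => 0)) = bw (fun s => uS B s &&& vS B s) ∧
      rP (bw (qf B fun _ => 0)) = bw (fun s => uS B s ^^^ vS B s) := by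
  have hu := word_u hB h157 (f := fun _ => 0) (fun _ => Nat.zero_le _)
  have hv := word_v hB h157 (f := fun _ => 0) (fun _ => Nat.zero_le _)
  set Q := bw (qf B fun _ => 0) with hQ
  have hu1 : ∀ s, uS B s ≤ 1 := by
    intro s
    unfold uS
    split_ifs
    · exact ind_le _ _
    · exact Nat.zero_le _
  have hv1 : ∀ s, vS B s ≤ 1 := by
    intro s
    unfold vS
    split_ifs
    · exact ind_le _ _
    · exact Nat.zero_le _
  constructor
  · show (Q &&& (Q >>> 1)) &&& m1_4 = _
    have h1 : (Q &&& (Q >>> 1)) &&& m1_4 = (Q &&& m1_4) &&& ((Q >>> 1) &&& m1_4) := by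
      refine Nat.eq_of_testBit_eq fun i => ?_
      simp only [Nat.testBit_and]
      cases Q.testBit i <;> cases (Q >>> 1).testBit i <;> cases m1_4.testBit i <;> rfl
    rw [h1, hu, hv, bw_land (fun s => by have := hu1 s; omega) (fun s => by have := hv1 s; omega)]
  · show (Q ^^^ (Q >>> 1)) &&& m1_4 = _
    have h1 : (Q ^^^ (Q >>> 1)) &&& m1_4 = (Q &&& m1_4) ^^^ ((Q >>> 1) &&& m1_4) := by
      refine Nat.eq_of_testBit_eq fun i => ?_
      simp only [Nat.testBit_and, Nat.testBit_xor]
      cases Q.testBit i <;> cases (Q >>> 1).testBit i <;> cases m1_4.testBit i <;> rfl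
    rw [h1, hu, hv]
    unfold bw
    exact pk_xor (fun m _ => by have := hu1 (ofMask m); omega)
      (fun m _ => by have := hv1 (ofMask m); omega)

/-- the common quads of the two links on the eleven points -/
def Cm (B : Finset (Finset (Fin 13))) : Finset (Finset (Fin 13)) := outer B 12 11 ∩ outer B 11 12

theorem fam_Cm (hB : OddCover B) : Fam (2 + 2) (Cm B) := fun b hb =>
  fam_outer hB (p := 12) (p' := 11) (Or.inl ⟨rfl, rfl⟩) b (mem_inter.1 hb).1

theorem uv_ind {s : Finset (Fin 13)} (hB : OddCover B) (hs : s ⊆ R11) :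
    uS B s &&& vS B s = ind (Cm B) s := by
  have h12 : (12 : Fin 13) ∉ s := Spec.notMem (Or.inl ⟨rfl, rfl⟩) hs
  have h11 : (11 : Fin 13) ∉ s := Spec.notMem (Or.inr ⟨rfl, rfl⟩) hs
  by_cases h4 : s.card = 4
  · unfold uS vS ind Cm outer
    rw [if_pos h4, if_pos h4]
    by_cases h1 : s ∈ link B 12
    · by_cases h2 : s ∈ link B 11
      · rw [if_pos h1, if_pos h2, if_pos (mem_inter.2 ⟨mem_filter.2 ⟨h1, h11⟩,
          mem_filter.2 ⟨h2, h12⟩⟩)]
        rfl
      · rw [if_pos h1, if_neg h2, if_neg fun h => h2 (mem_filter.1 (mem_inter.1 h).2).1]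
        rfl
    · rw [if_neg h1, Nat.zero_and, if_neg fun h => h1 (mem_filter.1 (mem_inter.1 h).1).1]
  · rw [(fam_Cm hB).ind_zero h4]
    unfold uS
    rw [if_neg h4, Nat.zero_and]

/-- values of the root pair word -/
def wR (B : Finset (Finset (Fin 13))) (s : Finset (Fin 13)) : ℕ :=
  if s.card = 2 then cnt (Cm B) s + P1 B s else 0

theorem rF_eq (hB : OddCover B) (h157 : B.card ≤ 157) :
    rF (bw (qf B fun _ => 0)) = bw (wR B) := by
  have hp := word_p hB h157 (f := fun _ => 0) (fun _ => Nat.zero_le _)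
  have hC : rC (bw (qf B fun _ => 0)) = bw (ind (Cm B)) := by
    rw [(word_uv hB h157).1]
    exact bw_congr fun s hs => uv_ind hB hs
  have hcorr : Nat.shiftRight (Nat.mul (rC (bw (qf B fun _ => 0))) kC2) 12288 =
      corr 1536 (cC 1536 (L 11 2)) (bw (ind (Cm B))) := by
    rw [← hC, ← kC2_eq]
    rfl
  show (Nat.shiftRight (Nat.mul (rC (bw (qf B fun _ => 0))) kC2) 12288 &&& m255_2) +
    (bw (qf B fun _ => 0) &&& m255_2) = _
  rw [hcorr, hp, m255_2_eq, corr_bw (i := 2) (j := 2) (b := 1)
    (fun s _ hs => (fam_Cm hB).ind_zero hs) (fun s _ => ind_le _ s) (by decide) (by decide), bw_add]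
  refine bw_congr fun s _ => ?_
  unfold wR pS
  split_ifs with h
  · rw [sup_count (i := 2) (j := 2) (fam_Cm hB) h]
  · rfl

/-- the blocks which meet the pair -/
def decK (B : Finset (Finset (Fin 13))) : Finset (Finset (Fin 13)) :=
  B.filter fun b => 12 ∈ b ∨ 11 ∈ b

/-- the root pair word is a lower bound for the known blocks -/
theorem wR_le (hB : OddCover B) {s : Finset (Fin 13)} (h2 : s.card = 2) :
    wR B s ≤ Lam (decK B) s := by
  unfold wR
  rw [if_pos h2]
  have h1 : Lam (decK B) s =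
      ∑ q ∈ quads.filter (fun q => s ⊆ q ∧ (12 ∈ q ∨ 11 ∈ q)), ex (decK B) q +
      ∑ q ∈ quads.filter (fun q => s ⊆ q ∧ ¬ (12 ∈ q ∨ 11 ∈ q)), ex (decK B) q := by
    unfold Lam LamW
    rw [← sum_filter_add_sum_filter_not (quads.filter (fun q => s ⊆ q))
      (fun q => 12 ∈ q ∨ 11 ∈ q), filter_filter, filter_filter]
  rw [h1, Nat.add_comm]
  refine Nat.add_le_add ?_ ?_
  · unfold P1
    refine sum_le_sum fun q hq => ?_
    rw [mem_filter] at hq
    refine le_of_eq ?_
    unfold ex cnt
    have h3 : (decK B).filter (fun b => q ⊆ b) = B.filter (fun b => q ⊆ b) := by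
      unfold decK
      rw [filter_filter]
      refine filter_congr fun b _ => ?_
      constructor
      · exact fun h => h.2
      · intro h
        refine ⟨?_, h⟩
        rcases hq.2.2 with h4 | h4
        · exact Or.inl (h h4)
        · exact Or.inr (h h4)
    rw [h3]
  · unfold cnt
    rw [card_eq_sum_ones]
    refine le_trans (sum_le_sum fun q hq => ?_) (sum_le_sum_of_subset (f := fun q =>
      ex (decK B) q) ?_)
    · rw [mem_filter] at hq
      have hu := (mem_inter.1 hq.1).1
      have hv := (mem_inter.1 hq.1).2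
      unfold outer at hu hv
      rw [mem_filter, mem_link] at hu hv
      -- two blocks
      have h3 : ({insert 12 q, insert 11 q} : Finset (Finset (Fin 13))) ⊆
          (decK B).filter (fun b => q ⊆ b) := by
        intro b hb
        rw [mem_insert, mem_singleton] at hb
        unfold decK
        rw [mem_filter, mem_filter]
        rcases hb with rfl | rfl
        · exact ⟨⟨hu.1.2, Or.inl (mem_insert_self _ _)⟩, subset_insert _ _⟩
        · exact ⟨⟨hv.1.2, Or.inr (mem_insert_self _ _)⟩, subset_insert _ _⟩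
      have hne : insert 12 q ≠ insert 11 q := by
        intro h
        have h4 : (12 : Fin 13) ∈ insert 11 q := h ▸ mem_insert_self 12 q
        rcases mem_insert.1 h4 with h5 | h5
        · exact absurd h5 (by decide)
        · exact hu.1.1 h5
      have h4 := card_le_card h3
      rw [card_pair hne] at h4
      unfold ex cnt
      omega
    · intro q hq
      rw [mem_filter] at hq
      have hu := (mem_inter.1 hq.1).1
      have hv := (mem_inter.1 hq.1).2
      have hq4 := (fam_Cm hB q hq.1).2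
      unfold outer at hu hv
      rw [mem_filter, mem_link] at hu hv
      rw [mem_filter, mem_quads]
      refine ⟨hq4, hq.2, ?_⟩
      rintro (h | h)
      · exact hu.1.1 h
      · exact hv.1.1 h

end Pool.Agent.Helper64.TY.K7
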